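import Pool.Agent.Lib.MP_5d6127_an.Defs

set_option autoImplicit false

namespace Pool.Agent.Lib.MP_5d6127_an

open Set Filter Topology Metric Asymptotics

theorem bidisc_isOpen : IsOpen Bidisc := by
  have h1 : IsOpen {z : ℂ × ℂ | ‖z.1‖ < 1} := isOpen_lt (continuous_fst.norm) continuous_const
  have h2 : IsOpen {z : ℂ × ℂ | ‖z.2‖ < 1} := isOpen_lt (continuous_snd.norm) continuous_const
  exact h1.inter h2

theorem zero_mem_bidisc : (0 : ℂ × ℂ) ∈ Bidisc := by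
  simp [Bidisc]

theorem bidisc_nhds : Bidisc ∈ 𝓝 (0 : ℂ × ℂ) := bidisc_isOpen.mem_nhds zero_mem_bidisc

/-- the second Taylor coefficient at `0` -/
noncomputable def c2 (k : ℂ → ℂ) : ℂ := iteratedDeriv 2 k 0 / 2

/-- second order Taylor expansion for functions with vanishing value and derivative -/
theorem taylor_two {k : ℂ → ℂ} (hk : AnalyticAt ℂ k 0) (h0 : k 0 = 0) (h1 : deriv k 0 = 0) :
    (fun ζ => k ζ - c2 k * ζ ^ 2) =o[𝓝 0] fun ζ => ζ ^ 2 := by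
  obtain ⟨F, hF, hk2⟩ := hk.exists_eventuallyEq_sum_add_pow_mul 3
  have h3 : (fun ζ => k ζ - c2 k * ζ ^ 2) =ᶠ[𝓝 0] fun ζ => ζ ^ 2 * (ζ * F ζ) := by
    filter_upwards [hk2] with z hz
    rw [hz]
    simp only [Finset.sum_range_succ, Finset.sum_range_zero, iteratedDeriv_zero,
      iteratedDeriv_one, h0, h1, smul_eq_mul, Nat.factorial, c2]
    push_cast
    ring
  refine h3.trans_isLittleO ?_
  have hz : Tendsto (fun ζ : ℂ => ζ * F ζ) (𝓝 0) (𝓝 0) := by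
    have : ContinuousAt (fun ζ : ℂ => ζ * F ζ) 0 := continuousAt_id.mul hF.continuousAt
    simpa using this.tendsto
  have := (isBigO_refl (fun ζ : ℂ => ζ ^ 2) (𝓝 0)).mul_isLittleO ((isLittleO_one_iff ℂ).mpr hz)
  simpa using this

/-- uniqueness of the second Taylor coefficient -/
theorem c2_unique {k : ℂ → ℂ} {c : ℂ} (hk : AnalyticAt ℂ k 0)
    (h : (fun ζ => k ζ - c * ζ ^ 2) =o[𝓝 0] fun ζ => ζ ^ 2) : c2 k = c := by
  have hj : AnalyticAt ℂ (fun ζ => k ζ - c * ζ ^ 2) 0 := by fun_prop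
  have hord : (3 : ℕ) ≤ analyticOrderAt (fun ζ => k ζ - c * ζ ^ 2) 0 := by
    by_contra hlt
    push Not at hlt
    have hne : analyticOrderAt (fun ζ => k ζ - c * ζ ^ 2) 0 ≠ ⊤ := hlt.ne_top
    obtain ⟨n, hn⟩ := ENat.ne_top_iff_exists.mp hne
    rw [← hn] at hlt
    have hn3 : n < 3 := by exact_mod_cast hlt
    obtain ⟨g, hg, hg0, hgeq⟩ := (hj.analyticOrderAt_eq_natCast).mp hn.symm
    simp only [sub_zero, smul_eq_mul] at hgeq
    have hpos : 0 < ‖g 0‖ / 2 := by positivity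
    have e1 := h.bound hpos
    have e2 : ∀ᶠ ζ in 𝓝 (0 : ℂ), ‖g 0‖ / 2 < ‖g ζ‖ := by
      have hc : ContinuousAt (fun ζ => ‖g ζ‖) 0 := hg.continuousAt.norm
      exact hc.eventually (lt_mem_nhds (half_lt_self (norm_pos_iff.mpr hg0)))
    have e3 : ∀ᶠ ζ in 𝓝 (0 : ℂ), ‖ζ‖ < 1 := by
      have hc : ContinuousAt (fun ζ : ℂ => ‖ζ‖) 0 := continuous_norm.continuousAt
      have : ‖(0 : ℂ)‖ < 1 := by simp
      exact hc.eventually (gt_mem_nhds this)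
    have e4 : ∀ᶠ ζ in 𝓝[≠] (0 : ℂ), False := by
      have hall := (((e1.and e2).and e3).and hgeq).filter_mono (nhdsWithin_le_nhds (s := {0}ᶜ))
      filter_upwards [hall, self_mem_nhdsWithin] with ζ hζ hne0
      obtain ⟨⟨⟨b1, b2⟩, b3⟩, b4⟩ := hζ
      rw [b4, norm_mul, norm_pow, norm_pow] at b1
      have hz : 0 < ‖ζ‖ := norm_pos_iff.mpr hne0
      have hpow : ‖ζ‖ ^ 2 ≤ ‖ζ‖ ^ n := pow_le_pow_of_le_one hz.le b3.le (by omega)
      have hpn : 0 < ‖ζ‖ ^ n := pow_pos hz n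
      have : ‖ζ‖ ^ n * ‖g ζ‖ ≤ ‖g 0‖ / 2 * ‖ζ‖ ^ n :=
        b1.trans (mul_le_mul_of_nonneg_left hpow hpos.le)
      nlinarith
    exact (NeBot.ne (inferInstance : NeBot (𝓝[≠] (0 : ℂ)))) (by simpa using e4)
  have h2 := (natCast_le_analyticOrderAt_iff_iteratedDeriv_eq_zero hj).mp hord 2 (by norm_num)
  have h4 : iteratedDeriv 2 (fun ζ : ℂ => k ζ - c * ζ ^ 2) 0 =
      iteratedDeriv 2 k 0 - iteratedDeriv 2 (fun ζ : ℂ => c * ζ ^ 2) 0 := by
    rw [iteratedDeriv_fun_sub]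
    · exact hk.contDiffAt
    · fun_prop
  have h5 : iteratedDeriv 2 (fun ζ : ℂ => c * ζ ^ 2) 0 = 2 * c := by
    rw [iteratedDeriv_const_mul_field, iteratedDeriv_fun_pow_zero]
    simp
    ring
  rw [h4, h5] at h2
  unfold c2
  linear_combination h2 / 2

theorem c2_sub {k l : ℂ → ℂ} (hk : AnalyticAt ℂ k 0) (hl : AnalyticAt ℂ l 0) :
    c2 (fun ζ => k ζ - l ζ) = c2 k - c2 l := by
  unfold c2
  rw [iteratedDeriv_fun_sub hk.contDiffAt hl.contDiffAt]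
  ring

/-- Cauchy's estimate for the second coefficient on the unit disc -/
theorem c2_bound {h : ℂ → ℂ} {C : ℝ} (hd : DifferentiableOn ℂ h (ball 0 1))
    (hb : ∀ ζ, ‖ζ‖ < 1 → ‖h ζ‖ ≤ C) : ‖c2 h‖ ≤ C := by
  have key : ∀ r : ℝ, 0 < r → r < 1 → ‖c2 h‖ * r ^ 2 ≤ C := by
    intro r hr hr1
    have hdc : DiffContOnCl ℂ h (ball 0 r) := by
      apply DifferentiableOn.diffContOnCl
      rw [closure_ball (0 : ℂ) hr.ne']
      refine hd.mono ?_
      intro z hz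
      rw [mem_closedBall_zero_iff] at hz
      rw [mem_ball_zero_iff]
      exact hz.trans_lt hr1
    have := Complex.norm_iteratedDeriv_le_of_forall_mem_sphere_norm_le (C := C) 2 hr hdc (by
      intro z hz
      rw [mem_sphere_zero_iff_norm] at hz
      exact hb z (hz ▸ hr1))
    rw [le_div_iff₀ (by positivity)] at this
    unfold c2
    rw [norm_div]
    simp only [Nat.factorial] at this
    norm_num at this ⊢
    linarith
  have hlim : Tendsto (fun r : ℝ => ‖c2 h‖ * r ^ 2) (𝓝[<] 1) (𝓝 (‖c2 h‖ * 1 ^ 2)) := by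
    apply Tendsto.mono_left _ nhdsWithin_le_nhds
    exact (continuous_const.mul (continuous_pow 2)).tendsto 1
  have hev : ∀ᶠ r : ℝ in 𝓝[<] 1, ‖c2 h‖ * r ^ 2 ≤ C := by
    have h1 : Ioo (0 : ℝ) 1 ∈ 𝓝[<] (1 : ℝ) := Ioo_mem_nhdsLT (by norm_num)
    filter_upwards [h1] with r hr
    exact key r hr.1 hr.2
  have := le_of_tendsto hlim hev
  simpa using this

/-- strict differentiability along the curve `(uζ², ζ)` and `(0, ζ)` -/
theorem strict_curve {g : ℂ × ℂ → ℂ} {L : ℂ × ℂ →L[ℂ] ℂ} (hg : HasStrictFDerivAt g L 0)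
    {a b : ℂ → ℂ} (ha : (a =O[𝓝 0] fun ζ => ζ ^ 2)) (hb : Tendsto b (𝓝 0) (𝓝 0)) :
    (fun ζ => g (a ζ, b ζ) - g (0, b ζ) - L (a ζ, 0)) =o[𝓝 0] fun ζ => ζ ^ 2 := by
  have ha0 : Tendsto a (𝓝 0) (𝓝 0) := by
    refine ha.trans_tendsto ?_
    have : ContinuousAt (fun ζ : ℂ => ζ ^ 2) 0 := by fun_prop
    simpa using this.tendsto
  have ht : Tendsto (fun ζ => ((a ζ, b ζ), ((0 : ℂ), b ζ))) (𝓝 0)
      (𝓝 (((0 : ℂ × ℂ)), ((0 : ℂ × ℂ)))) := by
    have h1 : Tendsto (fun ζ => (a ζ, b ζ)) (𝓝 0) (𝓝 ((0 : ℂ), (0 : ℂ))) := ha0.prodMk_nhds hb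
    have h2 : Tendsto (fun ζ => ((0 : ℂ), b ζ)) (𝓝 (0 : ℂ)) (𝓝 ((0 : ℂ), (0 : ℂ))) :=
      tendsto_const_nhds.prodMk_nhds hb
    exact h1.prodMk_nhds h2
  have h := hg.isLittleO.comp_tendsto ht
  simp only [Function.comp_def, Prod.mk_sub_mk, sub_zero, sub_self] at h
  refine h.trans_isBigO ?_
  refine IsBigO.trans ?_ ha
  refine IsBigO.of_bound 1 (Eventually.of_forall fun ζ => ?_)
  simp [Prod.norm_def]

end Pool.Agent.Lib.MP_5d6127_an
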