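import Pool.Agent.Lib.MP_5d6127_an.Basic

set_option autoImplicit false

namespace Pool.Agent.Lib.MP_5d6127_an

open Set Filter Topology Metric Asymptotics

/-- the mapping `(z₁ + a z₂², z₂)` -/
def shear (a : ℝ) (z : ℂ × ℂ) : ℂ × ℂ := (z.1 + a * z.2 ^ 2, z.2)

/-- the mapping `(z₁, z₂ + a z₁²)` -/
def shear' (a : ℝ) (z : ℂ × ℂ) : ℂ × ℂ := (z.1, z.2 + a * z.1 ^ 2)

theorem ofReal_exp_ne (t : ℝ) : (Real.exp t : ℂ) ≠ 0 := by
  exact_mod_cast (Real.exp_pos t).ne'

theorem shear_chain {a : ℝ} (ha0 : 0 ≤ a) (ha1 : a ≤ 1) :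
    IsNormalLoewnerChain (fun t z => (Real.exp t : ℂ) • shear a z) where
  holomorphic t _ := by
    intro z _
    have h1 : AnalyticAt ℂ (fun z : ℂ × ℂ => z.1) z := analyticAt_fst
    have h2 : AnalyticAt ℂ (fun z : ℂ × ℂ => z.2) z := analyticAt_snd
    have h3 : AnalyticAt ℂ (fun z : ℂ × ℂ => z.1 + a * z.2 ^ 2) z :=
      h1.add (analyticAt_const.mul (h2.pow 2))
    have h4 : AnalyticAt ℂ (fun _ : ℂ × ℂ => (Real.exp t : ℂ)) z := analyticAt_const
    exact h4.smul (h3.prod h2)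
  univalent t _ := by
    intro z _ w _ h
    have h' : shear a z = shear a w := smul_right_injective _ (ofReal_exp_ne t) h
    simp only [shear, Prod.mk.injEq] at h'
    obtain ⟨h1, h2⟩ := h'
    rw [h2] at h1
    exact Prod.ext (by linear_combination h1) h2
  map_zero t _ := by simp [shear]
  deriv_zero t _ := by
    have h1 : HasFDerivAt (fun z : ℂ × ℂ => z.1) (ContinuousLinearMap.fst ℂ ℂ ℂ) 0 := hasFDerivAt_fst
    have h2 : HasFDerivAt (fun z : ℂ × ℂ => z.2) (ContinuousLinearMap.snd ℂ ℂ ℂ) 0 := hasFDerivAt_snd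
    have h3 := h1.add ((h2.pow 2).const_mul (a : ℂ))
    have h4 := (h3.prodMk h2).const_smul (Real.exp t : ℂ)
    refine h4.congr_fderiv ?_
    ext <;> simp
  mono s t _ hst := by
    rintro _ ⟨z, hz, rfl⟩
    obtain ⟨hz1, hz2⟩ := hz
    set l : ℝ := Real.exp (s - t) with hl
    have hl0 : 0 < l := Real.exp_pos _
    have hl1 : l ≤ 1 := by
      rw [hl, Real.exp_le_one_iff]; linarith
    have hsl : (Real.exp s : ℂ) = (Real.exp t : ℂ) * (l : ℂ) := by
      rw [hl, ← Complex.ofReal_mul, ← Real.exp_add]; congr 2; ring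
    have hln : ‖(l : ℂ)‖ = l := by rw [Complex.norm_real, Real.norm_of_nonneg hl0.le]
    refine ⟨(l * z.1 + l * (1 - l) * a * z.2 ^ 2, l * z.2), ⟨?_, ?_⟩, ?_⟩
    · have h1 : ‖(l : ℂ) * z.1 + l * (1 - l) * a * z.2 ^ 2‖ ≤ l * ‖z.1‖ + l * (1 - l) * a * ‖z.2‖ ^ 2 := by
        refine (norm_add_le _ _).trans ?_
        have e : ((l : ℂ) * (1 - l) * a) = ((l * (1 - l) * a : ℝ) : ℂ) := by push_cast; ring
        rw [norm_mul, hln, norm_mul, norm_pow, e, Complex.norm_real, Real.norm_of_nonneg]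
        have : 0 ≤ 1 - l := by linarith
        positivity
      refine h1.trans_lt ?_
      have h2 : ‖z.2‖ ^ 2 ≤ 1 := by
        have := norm_nonneg z.2
        nlinarith
      have h3 : 0 ≤ ‖z.2‖ ^ 2 := by positivity
      have h4 : l * (1 - l) * a * ‖z.2‖ ^ 2 ≤ 1 - l := by
        have h5 : 0 ≤ 1 - l := by linarith
        calc l * (1 - l) * a * ‖z.2‖ ^ 2 = (1 - l) * (l * (a * ‖z.2‖ ^ 2)) := by ring
          _ ≤ (1 - l) * 1 := by
            apply mul_le_mul_of_nonneg_left _ h5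
            have h6 : a * ‖z.2‖ ^ 2 ≤ 1 := by nlinarith
            have h7 : 0 ≤ a * ‖z.2‖ ^ 2 := by positivity
            nlinarith
          _ = 1 - l := mul_one _
      nlinarith
    · rw [norm_mul, hln]
      nlinarith [norm_nonneg z.2]
    · simp only [shear, Prod.smul_mk, smul_eq_mul, Prod.mk.injEq]
      rw [hsl]
      constructor <;> ring
  normal τ _ := by
    refine ⟨id, shear a, strictMono_id, ?_⟩
    have : (fun (n : ℕ) z => (Real.exp (-(τ (id n))) : ℂ) • (Real.exp (τ (id n)) : ℂ) • shear a z) =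
        fun (_ : ℕ) z => shear a z := by
      funext n z
      rw [smul_smul, ← Complex.ofReal_mul, ← Real.exp_add]
      simp
    rw [this]
    exact TendstoUniformlyOn.tendstoLocallyUniformlyOn
      (fun u hu => Eventually.of_forall fun n z _ => refl_mem_uniformity hu)

theorem bidisc_swap {z : ℂ × ℂ} (hz : z ∈ Bidisc) : z.swap ∈ Bidisc := ⟨hz.2, hz.1⟩

/-- swapping the coordinates preserves normal Loewner chains -/
theorem chain_swap {F : ℝ → ℂ × ℂ → ℂ × ℂ} (hF : IsNormalLoewnerChain F) :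
    IsNormalLoewnerChain (fun t z => (F t z.swap).swap) where
  holomorphic t ht := by
    intro z hz
    have h1 : AnalyticAt ℂ (F t) z.swap := hF.holomorphic t ht _ (bidisc_swap hz)
    have h2 : AnalyticAt ℂ (fun w : ℂ × ℂ => F t w.swap) z :=
      h1.comp ((ContinuousLinearEquiv.prodComm ℂ ℂ ℂ : ℂ × ℂ →L[ℂ] ℂ × ℂ).analyticAt z)
    exact ((ContinuousLinearEquiv.prodComm ℂ ℂ ℂ : ℂ × ℂ →L[ℂ] ℂ × ℂ).analyticAt _).comp h2
  univalent t ht := by
    intro z hz w hw h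
    have h1 : F t z.swap = F t w.swap := Prod.swap_injective h
    exact Prod.swap_injective (hF.univalent t ht (bidisc_swap hz) (bidisc_swap hw) h1)
  map_zero t ht := by
    have : (0 : ℂ × ℂ).swap = 0 := rfl
    rw [this, hF.map_zero t ht, this]
  deriv_zero t ht := by
    have hs := (ContinuousLinearEquiv.prodComm ℂ ℂ ℂ : ℂ × ℂ →L[ℂ] ℂ × ℂ).hasFDerivAt (x := (0 : ℂ × ℂ))
    have h0 : HasFDerivAt (F t) ((Real.exp t : ℂ) • ContinuousLinearMap.id ℂ (ℂ × ℂ))
      ((ContinuousLinearEquiv.prodComm ℂ ℂ ℂ : ℂ × ℂ →L[ℂ] ℂ × ℂ) 0) := by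
      simpa using hF.deriv_zero t ht
    have h1 := h0.comp (0 : ℂ × ℂ) hs
    have h2 := ((ContinuousLinearEquiv.prodComm ℂ ℂ ℂ : ℂ × ℂ →L[ℂ] ℂ × ℂ).hasFDerivAt).comp
      (0 : ℂ × ℂ) h1
    refine h2.congr_fderiv ?_
    ext <;> simp
  mono s t hs hst := by
    rintro _ ⟨z, hz, rfl⟩
    obtain ⟨w, hw, hwz⟩ := hF.mono s t hs hst ⟨z.swap, bidisc_swap hz, rfl⟩
    exact ⟨w.swap, bidisc_swap hw, by simp [hwz]⟩
  normal τ hτ := by
    obtain ⟨φ, g, hφ, hg⟩ := hF.normal τ hτ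
    refine ⟨φ, fun z => (g z.swap).swap, hφ, ?_⟩
    have h1 := hg.comp (g := Prod.swap) (t := Bidisc) (fun z hz => bidisc_swap hz)
      continuous_swap.continuousOn
    have h2 := UniformContinuous.comp_tendstoLocallyUniformlyOn (g := Prod.swap (α := ℂ) (β := ℂ))
      uniformContinuous_swap h1
    exact h2

theorem S0_swap {f : ℂ × ℂ → ℂ × ℂ} (hf : f ∈ S0) : (fun z => (f z.swap).swap) ∈ S0 := by
  obtain ⟨F, hF, hfF⟩ := hf
  exact ⟨_, chain_swap hF, fun z hz => by simp only [hfF (bidisc_swap hz)]⟩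

theorem S0M_swap {f : ℂ × ℂ → ℂ × ℂ} {M : ℝ} (hf : f ∈ S0M M) :
    (fun z => (f z.swap).swap) ∈ S0M M :=
  ⟨S0_swap hf.1, fun z hz => by
    have := hf.2 _ (bidisc_swap hz)
    simpa [max_comm] using this⟩

theorem a220_swap (f : ℂ × ℂ → ℂ × ℂ) : a220 (fun z => (f z.swap).swap) = a102 f := rfl
theorem a102_swap (f : ℂ × ℂ → ℂ × ℂ) : a102 (fun z => (f z.swap).swap) = a220 f := rfl

theorem shear_mem {a M : ℝ} (ha0 : 0 ≤ a) (ha1 : a ≤ 1) (haM : 1 + a ≤ M) : shear a ∈ S0M M := by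
  refine ⟨⟨_, shear_chain ha0 ha1, fun z _ => by simp⟩, fun z hz => ?_⟩
  obtain ⟨h1, h2⟩ := hz
  simp only [shear]
  refine max_le ?_ (by linarith)
  refine (norm_add_le _ _).trans ?_
  rw [norm_mul, Complex.norm_real, Real.norm_of_nonneg ha0, norm_pow]
  have := norm_nonneg z.2
  have h3 : ‖z.2‖ ^ 2 ≤ 1 := by nlinarith
  nlinarith

theorem shear_a102 (a : ℝ) : a102 (shear a) = a := by
  unfold a102 shear
  simp only [zero_add]
  rw [iteratedDeriv_const_mul_field, iteratedDeriv_fun_pow_zero]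
  simp

theorem shear_a220 (a : ℝ) : a220 (shear a) = 0 := by
  unfold a220 shear
  simp

end Pool.Agent.Lib.MP_5d6127_an
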