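import Pool.Agent.Lib.MP_5d6127_an.Basic

set_option autoImplicit false

namespace Pool.Agent.Lib.MP_5d6127_an

open Set Filter Topology Metric Asymptotics

theorem curve_mem {u : ℂ} (hu : ‖u‖ ≤ 1) {ζ : ℂ} (hζ : ‖ζ‖ < 1) : (u * ζ ^ 2, ζ) ∈ Bidisc := by
  refine ⟨?_, hζ⟩
  simp only [norm_mul, norm_pow]
  have h0 : 0 ≤ ‖ζ‖ := norm_nonneg ζ
  have h1 : ‖ζ‖ ^ 2 < 1 := by nlinarith
  have h2 : 0 ≤ ‖ζ‖ ^ 2 := by positivity
  nlinarith [norm_nonneg u]

/-- The coefficient bound obtained from Cauchy's estimate along `ζ ↦ (uζ², ζ)`: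
if `g` is strictly differentiable at `0` with `∂g/∂z₁(0) = λ`, is differentiable along the curve and bounded by
`C` on the bidisc, then `|λ| + |c₂(g(0,·))| ≤ C`. -/
theorem slice_bound {g : ℂ × ℂ → ℂ} {C : ℝ} {L : ℂ × ℂ →L[ℂ] ℂ} (hg : DifferentiableOn ℂ g Bidisc)
    (hL : HasStrictFDerivAt g L 0) (hb : ∀ z ∈ Bidisc, ‖g z‖ ≤ C) :
    ‖L (1, 0)‖ + ‖c2 (fun w => g (0, w))‖ ≤ C := by
  have hdiff : ∀ u : ℂ, ‖u‖ ≤ 1 → DifferentiableOn ℂ (fun ζ : ℂ => g (u * ζ ^ 2, ζ)) (ball 0 1) := by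
    intro u hu
    refine hg.comp (g := g) (f := fun ζ : ℂ => (u * ζ ^ 2, ζ)) (t := Bidisc) ?_ ?_
    · fun_prop
    · intro ζ hζ
      exact curve_mem hu (mem_ball_zero_iff.mp hζ)
  have hdiff0 : DifferentiableOn ℂ (fun ζ : ℂ => g (0, ζ)) (ball 0 1) := by
    have := hdiff 0 (by simp)
    simpa using this
  have han : ∀ k : ℂ → ℂ, DifferentiableOn ℂ k (ball 0 1) → AnalyticAt ℂ k 0 := fun k hk =>
    hk.analyticAt (ball_mem_nhds 0 one_pos)
  set a := c2 (fun w => g (0, w)) with ha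
  have key : ∀ u : ℂ, ‖u‖ = 1 → ‖L (1, 0) * u + a‖ ≤ C := by
    intro u hu
    have h1 : c2 (fun ζ => g (u * ζ ^ 2, ζ) - g (0, ζ)) = L (1, 0) * u := by
      apply c2_unique
      · exact (han _ (hdiff u hu.le)).sub (han _ hdiff0)
      · have := strict_curve hL (a := fun ζ => u * ζ ^ 2) (b := fun ζ => ζ) ?_ tendsto_id
        · refine this.congr_left fun ζ => ?_
          have : L (u * ζ ^ 2, 0) = L (1, 0) * u * ζ ^ 2 := by
            have : ((u * ζ ^ 2, 0) : ℂ × ℂ) = (u * ζ ^ 2) • ((1, 0) : ℂ × ℂ) := by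
              simp
            rw [this, L.map_smul, smul_eq_mul]
            ring
          rw [this]
        · exact isBigO_const_mul_self u (fun ζ : ℂ => ζ ^ 2) (𝓝 0)
    rw [c2_sub (han _ (hdiff u hu.le)) (han _ hdiff0)] at h1
    have h2 : c2 (fun ζ => g (u * ζ ^ 2, ζ)) = L (1, 0) * u + a := by
      rw [ha]; linear_combination h1
    rw [← h2]
    apply c2_bound (hdiff u hu.le)
    intro ζ hζ
    exact hb _ (curve_mem hu.le hζ)
  -- choose the best `u`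
  by_cases hl : L (1, 0) = 0
  · have := key 1 (by simp)
    simpa [hl] using this
  by_cases ha0 : a = 0
  · have := key 1 (by simp)
    rw [ha0] at this
    simpa [ha0] using this
  · set l := L (1, 0) with hldef
    have hln : (‖l‖ : ℂ) ≠ 0 := by simpa using hl
    have han' : (‖a‖ : ℂ) ≠ 0 := by simpa using ha0
    have := key ((a / ‖a‖) * (‖l‖ / l)) (by
      rw [norm_mul, norm_div, norm_div]
      simp only [Complex.norm_real, norm_norm]
      rw [div_self (by simpa using ha0), div_self (by simpa using hl), one_mul])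
    have h3 : l * (a / ‖a‖ * (‖l‖ / l)) + a = ((‖l‖ + ‖a‖ : ℝ) : ℂ) * (a / ‖a‖) := by
      push_cast
      field_simp
    rw [h3, norm_mul, norm_div] at this
    simp only [Complex.norm_real, norm_norm] at this
    rw [div_self (by simpa using ha0), mul_one, Real.norm_of_nonneg (by positivity)] at this
    exact this

theorem bound_fst {f : ℂ × ℂ → ℂ × ℂ} {C : ℝ} {lam : ℂ} (hf : AnalyticOnNhd ℂ f Bidisc)
    (hd : HasFDerivAt f (lam • ContinuousLinearMap.id ℂ (ℂ × ℂ)) 0)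
    (hb : ∀ z ∈ Bidisc, ‖(f z).1‖ ≤ C) : ‖lam‖ + ‖a102 f‖ ≤ C := by
  have hs : HasStrictFDerivAt f (lam • ContinuousLinearMap.id ℂ (ℂ × ℂ)) 0 := by
    have h := (hf 0 zero_mem_bidisc).hasStrictFDerivAt
    rwa [hd.fderiv] at h
  have hs1 := (ContinuousLinearMap.fst ℂ ℂ ℂ).hasStrictFDerivAt.comp (0 : ℂ × ℂ) hs
  have := slice_bound (g := fun z => (f z).1) (C := C) (hf.differentiableOn.fst) hs1 hb
  simpa [c2, a102] using this

theorem bound_snd {f : ℂ × ℂ → ℂ × ℂ} {C : ℝ} {lam : ℂ} (hf : AnalyticOnNhd ℂ f Bidisc)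
    (hd : HasFDerivAt f (lam • ContinuousLinearMap.id ℂ (ℂ × ℂ)) 0)
    (hb : ∀ z ∈ Bidisc, ‖(f z).2‖ ≤ C) : ‖lam‖ + ‖a220 f‖ ≤ C := by
  have hs : HasStrictFDerivAt f (lam • ContinuousLinearMap.id ℂ (ℂ × ℂ)) 0 := by
    have h := (hf 0 zero_mem_bidisc).hasStrictFDerivAt
    rwa [hd.fderiv] at h
  have hswap : ∀ z : ℂ × ℂ, z ∈ Bidisc → z.swap ∈ Bidisc := fun z hz => ⟨hz.2, hz.1⟩
  have hs1 : HasStrictFDerivAt (fun z : ℂ × ℂ => (f z.swap).2)
      ((ContinuousLinearMap.snd ℂ ℂ ℂ).comp ((lam • ContinuousLinearMap.id ℂ (ℂ × ℂ)).comp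
        ((ContinuousLinearEquiv.prodComm ℂ ℂ ℂ : ℂ × ℂ →L[ℂ] ℂ × ℂ)))) 0 := by
    refine (ContinuousLinearMap.snd ℂ ℂ ℂ).hasStrictFDerivAt.comp (0 : ℂ × ℂ) ?_
    refine HasStrictFDerivAt.comp (g := f) (f := Prod.swap) (0 : ℂ × ℂ) ?_ ?_
    · exact hs
    · exact (ContinuousLinearEquiv.prodComm ℂ ℂ ℂ : ℂ × ℂ →L[ℂ] ℂ × ℂ).hasStrictFDerivAt
  have hdiff : DifferentiableOn ℂ (fun z : ℂ × ℂ => (f z.swap).2) Bidisc := by
    have h1 : DifferentiableOn ℂ (fun z : ℂ × ℂ => f z.swap) Bidisc :=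
      hf.differentiableOn.comp (g := f) (f := Prod.swap) (t := Bidisc)
        (ContinuousLinearEquiv.prodComm ℂ ℂ ℂ : ℂ × ℂ →L[ℂ] ℂ × ℂ).differentiable.differentiableOn
        (fun z hz => hswap z hz)
    exact h1.snd
  have := slice_bound (g := fun z => (f z.swap).2) (C := C) hdiff hs1
    (fun z hz => hb _ (hswap z hz))
  simpa [c2, a220] using this

end Pool.Agent.Lib.MP_5d6127_an
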