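import Pool.Agent.Lib.MP_5d6127_an.Osgood
import Pool.Agent.Lib.MP_5d6127_an.Upper
import Pool.Agent.Lib.MP_5d6127_an.Example

set_option autoImplicit false

namespace Pool.Agent.Lib.MP_5d6127_an

open Set Filter Topology Metric Asymptotics

/-- the transition mappings of a normal Loewner chain are holomorphic -/
theorem transition {F : ℝ → ℂ × ℂ → ℂ × ℂ} (hF : IsNormalLoewnerChain F) {s t : ℝ} (hs : 0 ≤ s)
    (hst : s ≤ t) : ∃ v : ℂ × ℂ → ℂ × ℂ, AnalyticOnNhd ℂ v Bidisc ∧ (∀ z ∈ Bidisc, v z ∈ Bidisc) ∧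
      (∀ z ∈ Bidisc, F t (v z) = F s z) ∧ v 0 = 0 ∧
      HasFDerivAt v ((Real.exp (s - t) : ℂ) • ContinuousLinearMap.id ℂ (ℂ × ℂ)) 0 := by
  classical
  have ht : 0 ≤ t := hs.trans hst
  have hex : ∀ z, ∃ w, z ∈ Bidisc → (w ∈ Bidisc ∧ F t w = F s z) := by
    intro z
    by_cases hz : z ∈ Bidisc
    · obtain ⟨w, hw, hwz⟩ := hF.mono s t hs hst ⟨z, hz, rfl⟩
      exact ⟨w, fun _ => ⟨hw, hwz⟩⟩
    · exact ⟨0, fun h => absurd h hz⟩
  choose v hv using hex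
  have hloc : ∀ z ∈ Bidisc, ∃ Θ : ℂ × ℂ → ℂ × ℂ, AnalyticAt ℂ Θ (F s z) ∧
      v =ᶠ[𝓝 z] fun x => Θ (F s x) := by
    intro z hz
    obtain ⟨hvz, hvF⟩ := hv z hz
    have hinj := osgood bidisc_isOpen (hF.holomorphic t ht) (hF.univalent t ht) hvz
    obtain ⟨Θ, hΘan, hΘp, hΘl, hΘr⟩ := exists_local_inverse (hF.holomorphic t ht _ hvz) hinj
    rw [hvF] at hΘan hΘp hΘr
    refine ⟨Θ, hΘan, ?_⟩
    have hcont : Tendsto (F s) (𝓝 z) (𝓝 (F s z)) :=
      (hF.holomorphic s hs z hz).continuousAt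
    have h1 : ∀ᶠ y in 𝓝 (F s z), Θ y ∈ Bidisc := by
      have : Tendsto Θ (𝓝 (F s z)) (𝓝 (v z)) := by
        have h := hΘan.continuousAt.tendsto
        rwa [hΘp] at h
      exact this (bidisc_isOpen.mem_nhds hvz)
    filter_upwards [hcont.eventually h1, hcont.eventually hΘr, bidisc_isOpen.mem_nhds hz]
      with x hx1 hx2 hx3
    obtain ⟨hvx, hvFx⟩ := hv x hx3
    exact hF.univalent t ht hvx hx1 (by rw [hvFx, hx2])
  have han : AnalyticOnNhd ℂ v Bidisc := by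
    intro z hz
    obtain ⟨Θ, hΘ, heq⟩ := hloc z hz
    exact (AnalyticAt.comp (g := Θ) (f := F s) hΘ (hF.holomorphic s hs z hz)).congr heq.symm
  have hv0 : v 0 = 0 := by
    obtain ⟨h1, h2⟩ := hv 0 zero_mem_bidisc
    refine hF.univalent t ht h1 zero_mem_bidisc ?_
    rw [h2, hF.map_zero s hs, hF.map_zero t ht]
  refine ⟨v, han, fun z hz => (hv z hz).1, fun z hz => (hv z hz).2, hv0, ?_⟩
  have hvd : HasFDerivAt v (fderiv ℂ v 0) 0 :=
    (han 0 zero_mem_bidisc).differentiableAt.hasFDerivAt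
  have h1 : HasFDerivAt (fun z => F t (v z))
      (((Real.exp t : ℂ) • ContinuousLinearMap.id ℂ (ℂ × ℂ)).comp (fderiv ℂ v 0)) 0 := by
    have h2 : HasFDerivAt (F t) ((Real.exp t : ℂ) • ContinuousLinearMap.id ℂ (ℂ × ℂ)) (v 0) := by
      rw [hv0]; exact hF.deriv_zero t ht
    exact h2.comp 0 hvd
  have h3 : HasFDerivAt (fun z => F t (v z)) ((Real.exp s : ℂ) • ContinuousLinearMap.id ℂ (ℂ × ℂ)) 0 := by
    refine (hF.deriv_zero s hs).congr_of_eventuallyEq ?_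
    filter_upwards [bidisc_nhds] with z hz
    exact (hv z hz).2
  have h4 := h1.unique h3
  have h5 : fderiv ℂ v 0 = (Real.exp (s - t) : ℂ) • ContinuousLinearMap.id ℂ (ℂ × ℂ) := by
    have hexp : (Real.exp (s - t) : ℂ) = (Real.exp t : ℂ)⁻¹ * (Real.exp s : ℂ) := by
      rw [Real.exp_sub]; push_cast; field_simp
    refine ContinuousLinearMap.ext fun w => ?_
    rw [hexp, mul_smul, ← h4]
    change fderiv ℂ v 0 w = (Real.exp t : ℂ)⁻¹ • ((Real.exp t : ℂ) • fderiv ℂ v 0 w)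
    rw [inv_smul_smul₀ (ofReal_exp_ne t)]
  rw [h5] at hvd
  exact hvd

theorem a102_eq_c2 (f : ℂ × ℂ → ℂ × ℂ) : a102 f = c2 (fun w => (f (0, w)).1) := rfl

theorem slice_analytic {f : ℂ × ℂ → ℂ × ℂ} (hf : AnalyticAt ℂ f 0) :
    AnalyticAt ℂ (fun w : ℂ => f (0, w)) 0 := by
  have h1 : AnalyticAt ℂ (fun w : ℂ => ((0 : ℂ), w)) 0 := analyticAt_const.prod analyticAt_id
  exact AnalyticAt.comp (g := f) (f := fun w : ℂ => ((0 : ℂ), w)) hf h1

theorem slice_deriv {f : ℂ × ℂ → ℂ × ℂ} {lam : ℂ}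
    (hd : HasFDerivAt f (lam • ContinuousLinearMap.id ℂ (ℂ × ℂ)) 0) :
    HasDerivAt (fun w : ℂ => f (0, w)) (0, lam) 0 := by
  have h1 : HasDerivAt (fun w : ℂ => ((0 : ℂ), w)) ((0 : ℂ), (1 : ℂ)) 0 :=
    (hasDerivAt_const (0 : ℂ) (0 : ℂ)).prodMk (hasDerivAt_id (0 : ℂ))
  have h2 : HasFDerivAt f (lam • ContinuousLinearMap.id ℂ (ℂ × ℂ)) ((fun w : ℂ => ((0 : ℂ), w)) 0) :=
    hd
  refine (h2.comp_hasDerivAt (0 : ℂ) h1).congr_deriv ?_
  simp

/-- expansion of `(f (0,w)).1` -/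
theorem slice_expand {f : ℂ × ℂ → ℂ × ℂ} {lam : ℂ} (hf : AnalyticAt ℂ f 0) (h0 : f 0 = 0)
    (hd : HasFDerivAt f (lam • ContinuousLinearMap.id ℂ (ℂ × ℂ)) 0) :
    (fun w : ℂ => (f (0, w)).1 - a102 f * w ^ 2) =o[𝓝 0] fun w => w ^ 2 := by
  have h1 : AnalyticAt ℂ (fun w : ℂ => (f (0, w)).1) 0 := analyticAt_fst.comp (slice_analytic hf)
  have h2 : HasDerivAt (fun w : ℂ => (f (0, w)).1) 0 0 :=
    (ContinuousLinearMap.fst ℂ ℂ ℂ).hasFDerivAt.comp_hasDerivAt (0 : ℂ) (slice_deriv hd)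
  have h3 : (fun w : ℂ => (f (0, w)).1) 0 = 0 := by
    change (f 0).1 = 0
    rw [h0]; rfl
  exact taylor_two h1 h3 h2.deriv

/-- composition formula for the coefficient -/
theorem a102_comp {G v : ℂ × ℂ → ℂ × ℂ} {mu lam : ℂ} (hG : AnalyticAt ℂ G 0) (hG0 : G 0 = 0)
    (hGd : HasFDerivAt G (mu • ContinuousLinearMap.id ℂ (ℂ × ℂ)) 0) (hv : AnalyticAt ℂ v 0)
    (hv0 : v 0 = 0) (hvd : HasFDerivAt v (lam • ContinuousLinearMap.id ℂ (ℂ × ℂ)) 0) :
    a102 (fun z => G (v z)) = mu * a102 v + a102 G * lam ^ 2 := by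
  have hvs := slice_analytic hv
  have hk : AnalyticAt ℂ (fun ζ : ℂ => (G (v (0, ζ))).1) 0 := by
    have h1 : AnalyticAt ℂ G ((fun ζ : ℂ => v (0, ζ)) 0) := by
      change AnalyticAt ℂ G (v 0)
      rw [hv0]; exact hG
    exact analyticAt_fst.comp (AnalyticAt.comp (g := G) (f := fun ζ : ℂ => v (0, ζ)) h1 hvs)
  rw [a102_eq_c2]
  apply c2_unique hk
  set a : ℂ → ℂ := fun ζ => (v (0, ζ)).1 with ha
  set b : ℂ → ℂ := fun ζ => (v (0, ζ)).2 with hb
  have hae : (fun ζ : ℂ => a ζ - a102 v * ζ ^ 2) =o[𝓝 0] fun ζ => ζ ^ 2 := slice_expand hv hv0 hvd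
  have haO : a =O[𝓝 0] fun ζ => ζ ^ 2 := by
    have h1 := hae.isBigO.add (isBigO_const_mul_self (a102 v) (fun ζ : ℂ => ζ ^ 2) (𝓝 0))
    simpa using h1
  have hbd : HasDerivAt b lam 0 :=
    (ContinuousLinearMap.snd ℂ ℂ ℂ).hasFDerivAt.comp_hasDerivAt (0 : ℂ) (slice_deriv hvd)
  have hb0 : b 0 = 0 := by
    change (v 0).2 = 0
    rw [hv0]; rfl
  have hbt : Tendsto b (𝓝 0) (𝓝 0) := by
    have := hbd.continuousAt.tendsto
    rwa [hb0] at this
  have hbe : (fun ζ => b ζ - lam * ζ) =o[𝓝 0] fun ζ => ζ := by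
    have := hbd.isLittleO
    simp only [hb0, sub_zero, smul_eq_mul] at this
    exact this.congr_left fun ζ => by ring
  have hbO : b =O[𝓝 0] fun ζ => ζ := by
    have h1 := hbe.isBigO.add (isBigO_const_mul_self lam (fun ζ : ℂ => ζ) (𝓝 0))
    simpa using h1
  -- strict differentiability of the first component of `G`
  have hs : HasStrictFDerivAt G (mu • ContinuousLinearMap.id ℂ (ℂ × ℂ)) 0 := by
    have h := hG.hasStrictFDerivAt
    rwa [hGd.fderiv] at h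
  have hs1 := (ContinuousLinearMap.fst ℂ ℂ ℂ).hasStrictFDerivAt.comp (0 : ℂ × ℂ) hs
  have e1 := strict_curve (g := fun z => (G z).1) hs1 haO hbt
  -- expansion of `G (0, b ζ)`
  have e2 : (fun ζ => (G (0, b ζ)).1 - a102 G * (b ζ) ^ 2) =o[𝓝 0] fun ζ => ζ ^ 2 := by
    have h1 := (slice_expand hG hG0 hGd).comp_tendsto hbt
    refine h1.trans_isBigO ?_
    exact hbO.pow 2
  have e3 : (fun ζ => (b ζ) ^ 2 - lam ^ 2 * ζ ^ 2) =o[𝓝 0] fun ζ => ζ ^ 2 := by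
    have h1 : (fun ζ => b ζ + lam * ζ) =O[𝓝 0] fun ζ => ζ :=
      hbO.add (isBigO_const_mul_self lam (fun ζ : ℂ => ζ) (𝓝 0))
    have h2 := hbe.mul_isBigO h1
    refine (h2.congr_left fun ζ => ?_).congr_right fun ζ => ?_
    · ring
    · ring
  have e4 : (fun ζ => a102 G * ((b ζ) ^ 2 - lam ^ 2 * ζ ^ 2)) =o[𝓝 0] fun ζ => ζ ^ 2 :=
    e3.const_mul_left _
  have e5 : (fun ζ : ℂ => mu * (a ζ - a102 v * ζ ^ 2)) =o[𝓝 0] fun ζ => ζ ^ 2 :=
    hae.const_mul_left _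
  have e6 := ((e1.add e2).add e4).add e5
  refine e6.congr_left fun ζ => ?_
  have hv' : v (0, ζ) = (a ζ, b ζ) := rfl
  simp only [hv', ContinuousLinearMap.comp_apply, smul_apply,
    ContinuousLinearMap.coe_id', id_eq, ContinuousLinearMap.coe_fst', Prod.smul_fst, smul_eq_mul]
  ring

theorem a102_congr {f g : ℂ × ℂ → ℂ × ℂ} (h : EqOn f g Bidisc) : a102 f = a102 g := by
  unfold a102
  congr 1
  apply Filter.EventuallyEq.iteratedDeriv_eq
  have hc : Tendsto (fun w : ℂ => ((0 : ℂ), w)) (𝓝 0) (𝓝 (0 : ℂ × ℂ)) := by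
    have : Continuous (fun w : ℂ => ((0 : ℂ), w)) := by fun_prop
    exact this.tendsto 0
  filter_upwards [hc bidisc_nhds] with w hw
  rw [h hw]

/-- one step of the chain estimate -/
theorem step_bound {F : ℝ → ℂ × ℂ → ℂ × ℂ} (hF : IsNormalLoewnerChain F) {s t : ℝ} (hs : 0 ≤ s)
    (hst : s ≤ t) :
    ‖a102 (F s)‖ ≤ (Real.exp t - Real.exp s) + Real.exp (s - t) ^ 2 * ‖a102 (F t)‖ := by
  have ht : 0 ≤ t := hs.trans hst
  obtain ⟨v, hvan, hvmem, hvF, hv0, hvd⟩ := transition hF hs hst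
  have h1 : a102 (F s) = (Real.exp t : ℂ) * a102 v + a102 (F t) * (Real.exp (s - t) : ℂ) ^ 2 := by
    rw [← a102_comp (hF.holomorphic t ht 0 zero_mem_bidisc) (hF.map_zero t ht) (hF.deriv_zero t ht)
      (hvan 0 zero_mem_bidisc) hv0 hvd]
    exact a102_congr fun z hz => (hvF z hz).symm
  have h2 : ‖(Real.exp (s - t) : ℂ)‖ + ‖a102 v‖ ≤ 1 :=
    bound_fst hvan hvd fun z hz => (hvmem z hz).1.le
  have hn : ∀ x : ℝ, ‖(Real.exp x : ℂ)‖ = Real.exp x := by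
    intro x; rw [Complex.norm_real, Real.norm_of_nonneg (Real.exp_pos x).le]
  rw [hn] at h2
  rw [h1]
  refine (norm_add_le _ _).trans ?_
  rw [norm_mul, norm_mul, norm_pow, hn, hn, mul_comm ‖a102 (F t)‖]
  have h3 : Real.exp t * ‖a102 v‖ ≤ Real.exp t * (1 - Real.exp (s - t)) :=
    mul_le_mul_of_nonneg_left (by linarith) (Real.exp_pos t).le
  have h4 : Real.exp t * (1 - Real.exp (s - t)) = Real.exp t - Real.exp s := by
    rw [mul_sub, mul_one, ← Real.exp_add]; ring_nf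
  linarith

/-- summed estimate -/
theorem sum_bound {F : ℝ → ℂ × ℂ → ℂ × ℂ} (hF : IsNormalLoewnerChain F) {δ : ℝ} (hδ : 0 < δ)
    (n : ℕ) : ‖a102 (F 0)‖ ≤ (Real.exp δ - 1) * ∑ k ∈ Finset.range n, (Real.exp (-δ)) ^ k +
      Real.exp (-(n * δ)) ^ 2 * ‖a102 (F (n * δ))‖ := by
  induction n with
  | zero => simp
  | succ n ih =>
    have h1 := step_bound hF (s := n * δ) (t := (n + 1 : ℕ) * δ) (by positivity)
      (by push_cast; nlinarith)
    have h2 : Real.exp (-(n * δ)) ^ 2 * ‖a102 (F (n * δ))‖ ≤ Real.exp (-(n * δ)) ^ 2 *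
        ((Real.exp ((n + 1 : ℕ) * δ) - Real.exp (n * δ)) +
          Real.exp (n * δ - (n + 1 : ℕ) * δ) ^ 2 * ‖a102 (F ((n + 1 : ℕ) * δ))‖) :=
      mul_le_mul_of_nonneg_left h1 (by positivity)
    refine ih.trans ?_
    rw [Finset.sum_range_succ, mul_add, add_assoc]
    refine add_le_add_right (h2.trans (le_of_eq ?_)) _
    have e1 : Real.exp (-(n * δ)) ^ 2 * (Real.exp ((n + 1 : ℕ) * δ) - Real.exp (n * δ)) =
        (Real.exp δ - 1) * Real.exp (-δ) ^ n := by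
      rw [← Real.exp_nat_mul, ← Real.exp_nat_mul, mul_sub, sub_mul, ← Real.exp_add, ← Real.exp_add,
        ← Real.exp_add, one_mul]
      push_cast
      congr 2 <;> ring_nf
    have e2 : Real.exp (-(n * δ)) ^ 2 * Real.exp (n * δ - (n + 1 : ℕ) * δ) ^ 2 =
        Real.exp (-((n + 1 : ℕ) * δ)) ^ 2 := by
      rw [← mul_pow, ← Real.exp_add]
      congr 2
      push_cast
      ring
    rw [mul_add, e1, ← mul_assoc, e2]

/-- growth of the coefficients along a subsequence, from normality -/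
theorem growth {F : ℝ → ℂ × ℂ → ℂ × ℂ} (hF : IsNormalLoewnerChain F) (τ : ℕ → ℝ)
    (hτ : ∀ n, 0 ≤ τ n) : ∃ (φ : ℕ → ℕ) (C : ℝ), StrictMono φ ∧
      ∀ᶠ n in atTop, ‖a102 (F (τ (φ n)))‖ ≤ C * Real.exp (τ (φ n)) := by
  obtain ⟨φ, g, hφ, hg⟩ := hF.normal τ hτ
  set K : Set (ℂ × ℂ) := (fun ζ : ℂ => ((0 : ℂ), ζ)) '' closedBall 0 (1 / 2) with hK
  have hKc : IsCompact K := (isCompact_closedBall (0 : ℂ) (1 / 2)).image (by fun_prop)
  have hKB : K ⊆ Bidisc := by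
    rintro _ ⟨ζ, hζ, rfl⟩
    refine ⟨by simp, ?_⟩
    have := mem_closedBall_zero_iff.mp hζ
    simp only
    linarith
  have hcontn : ∀ n, ContinuousOn (fun z => (Real.exp (-(τ (φ n))) : ℂ) • F (τ (φ n)) z) Bidisc := by
    intro n
    have h1 : ContinuousOn (F (τ (φ n))) Bidisc := (hF.holomorphic _ (hτ _)).continuousOn
    have h2 : ContinuousOn (fun _ : ℂ × ℂ => (Real.exp (-(τ (φ n))) : ℂ)) Bidisc :=
      continuousOn_const
    exact h2.smul h1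
  have hgc : ContinuousOn g Bidisc := hg.continuousOn (Frequently.of_forall hcontn)
  obtain ⟨B, hB⟩ := hKc.exists_bound_of_continuousOn (hgc.mono hKB)
  have hunif := (tendstoLocallyUniformlyOn_iff_forall_isCompact bidisc_isOpen).mp hg K hKB hKc
  rw [Metric.tendstoUniformlyOn_iff] at hunif
  have h1 := hunif 1 one_pos
  refine ⟨φ, 4 * (B + 1), hφ, ?_⟩
  filter_upwards [h1] with n hn
  have hbd : ∀ ζ : ℂ, ‖ζ‖ ≤ 1 / 2 → ‖(F (τ (φ n)) (0, ζ)).1‖ ≤ (B + 1) * Real.exp (τ (φ n)) := by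
    intro ζ hζ
    have hmem : ((0 : ℂ), ζ) ∈ K := ⟨ζ, mem_closedBall_zero_iff.mpr hζ, rfl⟩
    have h2 := hn _ hmem
    have h3 := hB _ hmem
    rw [dist_comm, dist_eq_norm] at h2
    have h4 : ‖(Real.exp (-(τ (φ n))) : ℂ) • F (τ (φ n)) (0, ζ)‖ ≤ B + 1 := by
      have h5 := norm_add_le ((Real.exp (-(τ (φ n))) : ℂ) • F (τ (φ n)) (0, ζ) - g (0, ζ)) (g (0, ζ))
      rw [sub_add_cancel] at h5
      linarith
    rw [norm_smul, Complex.norm_real, Real.norm_of_nonneg (Real.exp_pos _).le, Real.exp_neg,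
      inv_mul_le_iff₀ (Real.exp_pos _)] at h4
    calc _ ≤ ‖F (τ (φ n)) (0, ζ)‖ := norm_fst_le _
      _ ≤ _ := by linarith
  have hdc : DiffContOnCl ℂ (fun ζ : ℂ => (F (τ (φ n)) (0, ζ)).1) (ball 0 (1 / 2)) := by
    apply DifferentiableOn.diffContOnCl
    rw [closure_ball (0 : ℂ) (by norm_num)]
    intro ζ hζ
    have hmem : ((0 : ℂ), ζ) ∈ Bidisc := hKB ⟨ζ, hζ, rfl⟩
    have h2 : DifferentiableAt ℂ (F (τ (φ n))) (0, ζ) :=
      (hF.holomorphic _ (hτ _) _ hmem).differentiableAt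
    have h3 : DifferentiableAt ℂ (fun ζ : ℂ => ((0 : ℂ), ζ)) ζ := by fun_prop
    exact ((h2.comp ζ h3).fst).differentiableWithinAt
  have := Complex.norm_iteratedDeriv_le_of_forall_mem_sphere_norm_le
    (C := (B + 1) * Real.exp (τ (φ n))) 2 (by norm_num) hdc (by
      intro z hz
      rw [mem_sphere_zero_iff_norm] at hz
      exact hbd z hz.le)
  unfold a102
  rw [norm_div]
  norm_num [Nat.factorial] at this ⊢
  linarith

/-- the coefficient bound `|a¹₀₂| ≤ 1` on `S⁰(U²)` -/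
theorem chain_bound {F : ℝ → ℂ × ℂ → ℂ × ℂ} (hF : IsNormalLoewnerChain F) :
    ‖a102 (F 0)‖ ≤ 1 := by
  have key : ∀ δ : ℝ, 0 < δ → ‖a102 (F 0)‖ ≤ Real.exp δ := by
    intro δ hδ
    obtain ⟨φ, C, hφ, hC⟩ := growth hF (fun n => n * δ) (fun n => by positivity)
    have hq : Real.exp (-δ) < 1 := by rw [Real.exp_lt_one_iff]; linarith
    have hq0 : 0 < Real.exp (-δ) := Real.exp_pos _
    have hgeom : ∀ n : ℕ, (Real.exp δ - 1) * ∑ k ∈ Finset.range n, (Real.exp (-δ)) ^ k ≤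
        Real.exp δ := by
      intro n
      have h1 : ∑ k ∈ Finset.range n, (Real.exp (-δ)) ^ k ≤ (1 - Real.exp (-δ))⁻¹ := by
        rw [← tsum_geometric_of_lt_one hq0.le hq]
        exact (summable_geometric_of_lt_one hq0.le hq).sum_le_tsum _
          (fun i _ => by positivity)
      have h2 : (0 : ℝ) ≤ Real.exp δ - 1 := by
        have := Real.add_one_le_exp δ
        linarith
      calc _ ≤ (Real.exp δ - 1) * (1 - Real.exp (-δ))⁻¹ := mul_le_mul_of_nonneg_left h1 h2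
        _ = Real.exp δ := by
          have h3 : 1 - Real.exp (-δ) ≠ 0 := by linarith
          have h4 : Real.exp δ * Real.exp (-δ) = 1 := by rw [← Real.exp_add]; simp
          rw [mul_inv_eq_iff_eq_mul₀ h3]
          rw [mul_sub, mul_one, h4]
    have hlim : Tendsto (fun n => Real.exp δ + C * Real.exp (-((φ n : ℝ) * δ))) atTop
        (𝓝 (Real.exp δ + C * 0)) := by
      refine tendsto_const_nhds.add (tendsto_const_nhds.mul ?_)
      have h1 : Tendsto (fun n => (φ n : ℝ) * δ) atTop atTop :=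
        (tendsto_natCast_atTop_atTop.comp hφ.tendsto_atTop).atTop_mul_const hδ
      exact Real.tendsto_exp_neg_atTop_nhds_zero.comp h1
    have hev : ∀ᶠ n in atTop, ‖a102 (F 0)‖ ≤ Real.exp δ + C * Real.exp (-((φ n : ℝ) * δ)) := by
      filter_upwards [hC] with n hn
      have h1 := sum_bound hF hδ (φ n)
      have h2 := hgeom (φ n)
      have h3 : Real.exp (-((φ n : ℝ) * δ)) ^ 2 * ‖a102 (F ((φ n : ℝ) * δ))‖ ≤
          C * Real.exp (-((φ n : ℝ) * δ)) := by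
        calc _ ≤ Real.exp (-((φ n : ℝ) * δ)) ^ 2 * (C * Real.exp ((φ n : ℝ) * δ)) :=
              mul_le_mul_of_nonneg_left hn (by positivity)
          _ = C * Real.exp (-((φ n : ℝ) * δ)) *
              (Real.exp (-((φ n : ℝ) * δ)) * Real.exp ((φ n : ℝ) * δ)) := by ring
          _ = C * Real.exp (-((φ n : ℝ) * δ)) := by
              rw [← Real.exp_add]; simp
      linarith
    have := ge_of_tendsto hlim hev
    simpa using this
  have hlim : Tendsto (fun δ : ℝ => Real.exp δ) (𝓝[>] 0) (𝓝 (Real.exp 0)) :=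
    Real.continuous_exp.continuousAt.tendsto.mono_left nhdsWithin_le_nhds
  rw [Real.exp_zero] at hlim
  refine ge_of_tendsto hlim ?_
  filter_upwards [self_mem_nhdsWithin] with δ hδ
  exact key δ hδ

end Pool.Agent.Lib.MP_5d6127_an
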