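import Mathlib

set_option autoImplicit false

/-!
Definitions for the class of bounded mappings with parametric representation on the bidisc.
-/

namespace Pool.Agent.Lib.MP_5d6127_an

open Set Filter Topology

/-- The open unit bidisc in `ℂ × ℂ`: the set of `z` with `|z₁| < 1` and `|z₂| < 1`. -/
def Bidisc : Set (ℂ × ℂ) := {z | ‖z.1‖ < 1 ∧ ‖z.2‖ < 1}

/-- A normal Loewner chain on the bidisc, as in the problem file: every `f(·,t)`, `t ≥ 0`, is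
holomorphic (analytic) and injective on the bidisc, `f(0,t) = 0`, `Df(0,t) = e^t I`, the images
increase with `t`, and `e^{-t} f(·,t)`, `t ≥ 0`, is a normal family: every sequence of its members has a
subsequence that converges locally uniformly on the bidisc. -/
structure IsNormalLoewnerChain (f : ℝ → ℂ × ℂ → ℂ × ℂ) : Prop where
  holomorphic : ∀ t, 0 ≤ t → AnalyticOnNhd ℂ (f t) Bidisc
  univalent : ∀ t, 0 ≤ t → InjOn (f t) Bidisc
  map_zero : ∀ t, 0 ≤ t → f t 0 = 0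
  deriv_zero : ∀ t, 0 ≤ t →
    HasFDerivAt (f t) ((Real.exp t : ℂ) • ContinuousLinearMap.id ℂ (ℂ × ℂ)) 0
  mono : ∀ s t, 0 ≤ s → s ≤ t → f s '' Bidisc ⊆ f t '' Bidisc
  normal : ∀ τ : ℕ → ℝ, (∀ n, 0 ≤ τ n) → ∃ (φ : ℕ → ℕ) (g : ℂ × ℂ → ℂ × ℂ), StrictMono φ ∧
    TendstoLocallyUniformlyOn
      (fun n z => (Real.exp (-(τ (φ n))) : ℂ) • f (τ (φ n)) z) g atTop Bidisc

/-- `S⁰(U²)`: the mappings with parametric representation on the bidisc, i.e. (on the bidisc) the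
first elements of normal Loewner chains. -/
def S0 : Set (ℂ × ℂ → ℂ × ℂ) :=
  {f | ∃ F : ℝ → ℂ × ℂ → ℂ × ℂ, IsNormalLoewnerChain F ∧ EqOn f (F 0) Bidisc}

/-- `S⁰(U², M)`: the members of `S⁰(U²)` bounded by `M` in the maximum norm on the bidisc. -/
def S0M (M : ℝ) : Set (ℂ × ℂ → ℂ × ℂ) :=
  {f | f ∈ S0 ∧ ∀ z ∈ Bidisc, max ‖(f z).1‖ ‖(f z).2‖ ≤ M}

/-- `a¹₀₂(f) = (1/2) ∂²f₁/∂z₂²(0)`. -/
noncomputable def a102 (f : ℂ × ℂ → ℂ × ℂ) : ℂ := iteratedDeriv 2 (fun w : ℂ => (f (0, w)).1) 0 / 2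

/-- `a²₂₀(f) = (1/2) ∂²f₂/∂z₁²(0)`. -/
noncomputable def a220 (f : ℂ × ℂ → ℂ × ℂ) : ℂ := iteratedDeriv 2 (fun w : ℂ => (f (w, 0)).2) 0 / 2

end Pool.Agent.Lib.MP_5d6127_an
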