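import Mathlib

set_option autoImplicit false

namespace Pool.Agent.Lib.MP_5d6127_an

open Set Filter Topology Metric Asymptotics

/-- An analytic function of one variable with a critical point is not injective near it. -/
theorem not_injOn_of_deriv_eq_zero {g : ℂ → ℂ} {z₀ : ℂ} (hg : AnalyticAt ℂ g z₀)
    (hd : deriv g z₀ = 0) {V : Set ℂ} (hV : V ∈ 𝓝 z₀) : ¬ InjOn g V := by
  intro hinj
  have hg1 : AnalyticAt ℂ (fun z => g z - g z₀) z₀ := by fun_prop
  by_cases htop : analyticOrderAt (fun z => g z - g z₀) z₀ = ⊤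
  · rw [analyticOrderAt_eq_top] at htop
    have h1 : ∀ᶠ z in 𝓝[≠] z₀, False := by
      have hall := ((htop.and hV).filter_mono (nhdsWithin_le_nhds (s := {z₀}ᶜ)))
      filter_upwards [hall, self_mem_nhdsWithin] with z hz hne
      exact hne (hinj hz.2 (mem_of_mem_nhds hV) (sub_eq_zero.mp hz.1))
    exact (NeBot.ne (inferInstance : NeBot (𝓝[≠] z₀))) (by simpa using h1)
  · obtain ⟨n, hn⟩ := ENat.ne_top_iff_exists.mp htop
    have hn2 : (2 : ℕ) ≤ analyticOrderAt (fun z => g z - g z₀) z₀ := by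
      rw [natCast_le_analyticOrderAt_iff_iteratedDeriv_eq_zero hg1]
      intro i hi
      interval_cases i
      · simp
      · rw [iteratedDeriv_one, deriv_sub_const]
        exact hd
    rw [← hn] at hn2
    have hn2' : 2 ≤ n := by exact_mod_cast hn2
    obtain ⟨h, hh, hh0, hheq⟩ := (hg1.analyticOrderAt_eq_natCast).mp hn.symm
    simp only [smul_eq_mul] at hheq
    -- the local coordinate
    set φ : ℂ → ℂ := fun z => (z - z₀) * Complex.exp (Complex.log (h z / h z₀) / n) with hφ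
    have hslit : h z₀ / h z₀ ∈ Complex.slitPlane := by
      rw [div_self hh0]; exact Complex.one_mem_slitPlane
    have hquot : AnalyticAt ℂ (fun z => h z / h z₀) z₀ := hh.div_const
    have hlog : AnalyticAt ℂ (fun z => Complex.log (h z / h z₀)) z₀ := hquot.clog hslit
    have hE : AnalyticAt ℂ (fun z => Complex.exp (Complex.log (h z / h z₀) / n)) z₀ :=
      (hlog.div_const).cexp
    have hφan : AnalyticAt ℂ φ z₀ := (analyticAt_id.sub analyticAt_const).mul hE
    have hφ0 : φ z₀ = 0 := by simp [hφ]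
    have hφd : HasDerivAt φ 1 z₀ := by
      have h1 : HasDerivAt (fun z : ℂ => z - z₀) 1 z₀ := (hasDerivAt_id z₀).sub_const z₀
      have h2 := h1.mul hE.differentiableAt.hasDerivAt
      refine h2.congr_deriv ?_
      rw [sub_self, zero_mul, add_zero, one_mul, div_self hh0, Complex.log_one, zero_div,
        Complex.exp_zero]
    have hφs : HasStrictDerivAt φ 1 z₀ := by
      have := hφan.hasStrictDerivAt
      rwa [hφd.deriv] at this
    have hmap : map φ (𝓝 z₀) = 𝓝 (φ z₀) := hφs.map_nhds_eq one_ne_zero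
    -- a neighbourhood on which all formulas hold
    have hne : ∀ᶠ z in 𝓝 z₀, h z ≠ 0 := hh.continuousAt.eventually_ne hh0
    have hform : ∀ᶠ z in 𝓝 z₀, g z - g z₀ = h z₀ * (φ z) ^ n := by
      filter_upwards [hheq, hne] with z hz hz0
      rw [hz, hφ]
      simp only
      rw [mul_pow, ← Complex.exp_nat_mul]
      have hn0 : (n : ℂ) ≠ 0 := by
        have : n ≠ 0 := by omega
        exact_mod_cast this
      rw [mul_div_cancel₀ _ hn0, Complex.exp_log (div_ne_zero hz0 hh0)]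
      field_simp
    have hV' : {z | z ∈ V ∧ g z - g z₀ = h z₀ * (φ z) ^ n} ∈ 𝓝 z₀ := by
      filter_upwards [hV, hform] with z h1 h2
      exact ⟨h1, h2⟩
    have himg : φ '' {z | z ∈ V ∧ g z - g z₀ = h z₀ * (φ z) ^ n} ∈ 𝓝 (0 : ℂ) := by
      rw [← hφ0, ← hmap]
      exact image_mem_map hV'
    obtain ⟨ω, hω1, hωn⟩ : ∃ ω : ℂ, ω ≠ 1 ∧ ω ^ n = 1 := by
      refine ⟨Complex.exp (2 * Real.pi * Complex.I / n), ?_, ?_⟩
      · have hprim := Complex.isPrimitiveRoot_exp n (by omega)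
        exact hprim.ne_one (by omega)
      · have hprim := Complex.isPrimitiveRoot_exp n (by omega)
        exact hprim.pow_eq_one
    have himg2 : (fun w => ω * w) ⁻¹' (φ '' {z | z ∈ V ∧ g z - g z₀ = h z₀ * (φ z) ^ n}) ∈ 𝓝 (0 : ℂ) := by
      have hc : ContinuousAt (fun w : ℂ => ω * w) 0 := by fun_prop
      apply hc.preimage_mem_nhds
      simpa using himg
    have hex : ∃ w : ℂ, w ≠ 0 ∧ w ∈ φ '' {z | z ∈ V ∧ g z - g z₀ = h z₀ * (φ z) ^ n} ∧
        ω * w ∈ φ '' {z | z ∈ V ∧ g z - g z₀ = h z₀ * (φ z) ^ n} := by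
      have hall : ∀ᶠ w in 𝓝[≠] (0 : ℂ), w ≠ 0 ∧
          w ∈ φ '' {z | z ∈ V ∧ g z - g z₀ = h z₀ * (φ z) ^ n} ∧
          ω * w ∈ φ '' {z | z ∈ V ∧ g z - g z₀ = h z₀ * (φ z) ^ n} := by
        filter_upwards [self_mem_nhdsWithin, nhdsWithin_le_nhds himg, nhdsWithin_le_nhds himg2]
          with w h1 h2 h3
        exact ⟨h1, h2, h3⟩
      exact hall.exists
    obtain ⟨w, hw0, ⟨x, ⟨hxV, hx⟩, hxw⟩, ⟨y, ⟨hyV, hy⟩, hyw⟩⟩ := hex
    have hxy : g x = g y := by
      have : g x - g z₀ = g y - g z₀ := by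
        rw [hx, hy, hxw, hyw, mul_pow, hωn, one_mul]
      linear_combination this
    have : x = y := hinj hxV hyV hxy
    rw [this, hyw] at hxw
    have : (ω - 1) * w = 0 := by linear_combination hxw
    rcases mul_eq_zero.mp this with h1 | h1
    · exact hω1 (sub_eq_zero.mp h1)
    · exact hw0 h1

/-- Persistence of zeros (Hurwitz): zeros of `H (w, ·)` vary continuously. -/
theorem hurwitz {H : ℂ × ℂ → ℂ} {p : ℂ × ℂ} (hH : AnalyticAt ℂ H p) (h0 : H p = 0)
    (hne : ¬ ∀ᶠ ζ in 𝓝 p.2, H (p.1, ζ) = 0) {N : Set (ℂ × ℂ)} (hN : N ∈ 𝓝 p) :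
    ∀ᶠ w in 𝓝 p.1, ∃ ζ, (w, ζ) ∈ N ∧ H (w, ζ) = 0 := by
  have hslice : ∀ ζ : ℂ, ∀ w : ℂ, AnalyticAt ℂ H (w, ζ) → AnalyticAt ℂ (fun x => H (w, x)) ζ := by
    intro ζ w h
    exact h.comp (analyticAt_const.prod analyticAt_id)
  have hs : AnalyticAt ℂ (fun x => H (p.1, x)) p.2 := hslice p.2 p.1 hH
  -- isolated zero
  have hiso : ∀ᶠ ζ in 𝓝[≠] p.2, H (p.1, ζ) ≠ 0 := by
    rcases hs.eventually_eq_zero_or_eventually_ne_zero with h | h
    · exact absurd h hne
    · exact h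
  -- neighbourhood where everything is analytic and contained in `N`
  have hgood : {q : ℂ × ℂ | q ∈ N ∧ AnalyticAt ℂ H q} ∈ 𝓝 (p.1, p.2) :=
    (Filter.inter_mem hN hH.eventually_analyticAt)
  obtain ⟨r, hr, hball⟩ := Metric.mem_nhds_iff.mp hgood
  have hiso2 := eventually_nhdsWithin_iff.mp hiso
  obtain ⟨r2, hr2, hball2⟩ := Metric.mem_nhds_iff.mp hiso2
  set ρ := min r r2 / 2 with hρ
  have hmin : 0 < min r r2 := lt_min hr hr2
  have hρ0 : 0 < ρ := by positivity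
  have hρr : ρ < r := by
    have := min_le_left r r2; linarith
  have hρr2 : ρ < r2 := by
    have := min_le_right r r2; linarith
  have hmem : ∀ w ∈ ball p.1 ρ, ∀ ζ ∈ closedBall p.2 ρ, (w, ζ) ∈ N ∧ AnalyticAt ℂ H (w, ζ) := by
    intro w hw ζ hζ
    apply hball
    rw [mem_ball, Prod.dist_eq]
    exact max_lt ((mem_ball.mp hw).trans hρr) ((mem_closedBall.mp hζ).trans_lt hρr)
  -- lower bound on the sphere
  have hsph : ∀ ζ ∈ sphere p.2 ρ, H (p.1, ζ) ≠ 0 := by
    intro ζ hζ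
    have h1 : ζ ∈ ball p.2 r2 := by
      rw [mem_ball, mem_sphere.mp hζ]; exact hρr2
    refine hball2 h1 ?_
    intro h
    have : dist ζ p.2 = 0 := by rw [mem_singleton_iff.mp h, dist_self]
    rw [mem_sphere.mp hζ] at this
    exact hρ0.ne' this
  have hcont : ContinuousOn (fun ζ => ‖H (p.1, ζ)‖) (sphere p.2 ρ) := by
    intro ζ hζ
    have h1 := (hmem p.1 (mem_ball_self hρ0) ζ (sphere_subset_closedBall hζ)).2
    exact (hslice ζ p.1 h1).continuousAt.norm.continuousWithinAt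
  have hne' : (sphere p.2 ρ).Nonempty := NormedSpace.sphere_nonempty.mpr hρ0.le
  obtain ⟨ζm, hζm, hmin'⟩ := (isCompact_sphere p.2 ρ).exists_isMinOn hne' hcont
  set δ := ‖H (p.1, ζm)‖ / 2 with hδ
  have hδ0 : 0 < δ := by
    have := norm_pos_iff.mpr (hsph ζm hζm)
    positivity
  have hlow : ∀ ζ ∈ sphere p.2 ρ, 2 * δ ≤ ‖H (p.1, ζ)‖ := by
    intro ζ hζ
    have := hmin' hζ
    simp only [mem_ofPred_eq] at this
    linarith
  -- uniform lower bound for nearby `w`
  have hunif : ∀ᶠ w in 𝓝 p.1, ∀ ζ ∈ sphere p.2 ρ, δ < ‖H (w, ζ)‖ := by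
    apply (isCompact_sphere p.2 ρ).eventually_forall_of_forall_eventually
    intro ζ hζ
    have h1 := (hmem p.1 (mem_ball_self hρ0) ζ (sphere_subset_closedBall hζ)).2
    have h2 : ContinuousAt (fun q : ℂ × ℂ => ‖H q‖) (p.1, ζ) := h1.continuousAt.norm
    have h3 : δ < ‖H (p.1, ζ)‖ := by linarith [hlow ζ hζ]
    exact h2.eventually (lt_mem_nhds h3)
  have hsmall : ∀ᶠ w in 𝓝 p.1, ‖H (w, p.2)‖ < δ := by
    have h2 : ContinuousAt (fun w : ℂ => ‖H (w, p.2)‖) p.1 := by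
      have : ContinuousAt H (p.1, p.2) := hH.continuousAt
      exact (this.comp (f := fun w : ℂ => (w, p.2)) (by fun_prop)).norm
    have h3 : ‖H (p.1, p.2)‖ < δ := by
      have : H (p.1, p.2) = 0 := h0
      rw [this, norm_zero]; exact hδ0
    exact h2.eventually (gt_mem_nhds h3)
  filter_upwards [hunif, hsmall, ball_mem_nhds p.1 hρ0] with w hw1 hw2 hw3
  by_contra hno
  push Not at hno
  have hnz : ∀ ζ ∈ closedBall p.2 ρ, H (w, ζ) ≠ 0 := fun ζ hζ => hno ζ (hmem w hw3 ζ hζ).1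
  have hdc : DiffContOnCl ℂ (fun ζ => H (w, ζ)) (ball p.2 ρ) := by
    apply DifferentiableOn.diffContOnCl
    rw [closure_ball p.2 hρ0.ne']
    intro ζ hζ
    exact (hslice ζ w (hmem w hw3 ζ hζ).2).differentiableAt.differentiableWithinAt
  have hinv : DiffContOnCl ℂ (fun ζ => H (w, ζ))⁻¹ (ball p.2 ρ) := by
    apply hdc.inv
    rw [closure_ball p.2 hρ0.ne']
    exact hnz
  have hmax := Complex.norm_le_of_forall_mem_frontier_norm_le isBounded_ball hinv (C := δ⁻¹) (by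
    intro z hz
    rw [frontier_ball p.2 hρ0.ne'] at hz
    simp only [Pi.inv_apply, norm_inv]
    exact inv_anti₀ hδ0 (hw1 z hz).le) (subset_closure (mem_ball_self hρ0))
  simp only [Pi.inv_apply, norm_inv] at hmax
  have h5 : 0 < ‖H (w, p.2)‖ := norm_pos_iff.mpr (hnz p.2 (mem_closedBall_self hρ0.le))
  have h6 : δ ≤ ‖H (w, p.2)‖ := (inv_le_inv₀ h5 hδ0).mp hmax
  linarith

end Pool.Agent.Lib.MP_5d6127_an
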