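import Pool.Agent.Lib.MP_5d6127_an.OneVar

set_option autoImplicit false

namespace Pool.Agent.Lib.MP_5d6127_an

open Set Filter Topology Metric Asymptotics

theorem lin_expand (f : ℂ × ℂ →L[ℂ] ℂ) (v : ℂ × ℂ) : f v = f (1, 0) * v.1 + f (0, 1) * v.2 := by
  have h : v = v.1 • ((1, 0) : ℂ × ℂ) + v.2 • ((0, 1) : ℂ × ℂ) := by
    ext <;> simp
  conv_lhs => rw [h]
  rw [map_add, map_smul, map_smul, smul_eq_mul, smul_eq_mul]
  ring

/-- analytic local inverses in dimension two -/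
theorem exists_local_inverse {Φ : ℂ × ℂ → ℂ × ℂ} {p : ℂ × ℂ} (hΦ : AnalyticAt ℂ Φ p)
    (hinj : ∀ v, fderiv ℂ Φ p v = 0 → v = 0) :
    ∃ Θ : ℂ × ℂ → ℂ × ℂ, AnalyticAt ℂ Θ (Φ p) ∧ Θ (Φ p) = p ∧ (∀ᶠ x in 𝓝 p, Θ (Φ x) = x) ∧
      (∀ᶠ y in 𝓝 (Φ p), Φ (Θ y) = y) := by
  have hker : Function.Injective (fderiv ℂ Φ p : ℂ × ℂ →ₗ[ℂ] ℂ × ℂ) := by
    rw [injective_iff_map_eq_zero]
    exact hinj
  set L : (ℂ × ℂ) ≃L[ℂ] (ℂ × ℂ) :=
    (LinearEquiv.ofInjectiveEndo (fderiv ℂ Φ p : ℂ × ℂ →ₗ[ℂ] ℂ × ℂ) hker).toContinuousLinearEquiv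
    with hL
  have hLeq : (L : ℂ × ℂ →L[ℂ] ℂ × ℂ) = fderiv ℂ Φ p := by
    ext <;> simp [hL]
  have hs : HasStrictFDerivAt Φ (L : ℂ × ℂ →L[ℂ] ℂ × ℂ) p := by
    rw [hLeq]; exact hΦ.hasStrictFDerivAt
  refine ⟨hs.localInverse Φ L p, ?_, hs.localInverse_apply_image, hs.eventually_left_inverse,
    hs.eventually_right_inverse⟩
  exact (hs.toOpenPartialHomeomorph Φ).analyticAt_symm' (i := L)
    hs.mem_toOpenPartialHomeomorph_source hΦ hLeq.symm

theorem stepA {F : ℂ × ℂ → ℂ × ℂ} {a : ℂ × ℂ} (hF : AnalyticAt ℂ F a) {V : Set (ℂ × ℂ)}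
    (hV : V ∈ 𝓝 a) (hinj : InjOn F V) (l l' : ℂ × ℂ →L[ℂ] ℂ)
    (hl : ∀ v, l v = 0 → l' v = 0 → v = 0) {e k : ℂ × ℂ} (he : l (fderiv ℂ F a e) ≠ 0)
    (hk : k ≠ 0) (hDk : fderiv ℂ F a k = 0) : False := by
  obtain ⟨m, hm⟩ := SeparatingDual.exists_eq_one (R := ℂ) hk
  set D := fderiv ℂ F a with hD
  set Φ : ℂ × ℂ → ℂ × ℂ := fun z => (l (F z), m z) with hΦ
  have hΦan : AnalyticAt ℂ Φ a := ((l.analyticAt _).comp hF).prod (m.analyticAt _)
  have hFd : HasFDerivAt F D a := hF.differentiableAt.hasFDerivAt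
  have hΦd : HasFDerivAt Φ ((l.comp D).prod m) a :=
    (l.hasFDerivAt.comp a hFd).prodMk m.hasFDerivAt
  have hΦinj : ∀ v, fderiv ℂ Φ a v = 0 → v = 0 := by
    intro v hv
    rw [hΦd.fderiv] at hv
    simp only [ContinuousLinearMap.prod_apply, ContinuousLinearMap.comp_apply, Prod.mk_eq_zero] at hv
    obtain ⟨h1, h2⟩ := hv
    have e1 := lin_expand (l.comp D) v
    have e2 := lin_expand (l.comp D) k
    have e3 := lin_expand m v
    have e4 := lin_expand m k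
    have e5 := lin_expand (l.comp D) e
    simp only [ContinuousLinearMap.comp_apply] at e1 e2 e5
    rw [h1] at e1
    rw [hDk, map_zero] at e2
    rw [h2] at e3
    rw [hm] at e4
    set A := l (D (1, 0))
    set B := l (D (0, 1))
    set m1 := m (1, 0)
    set m2 := m (0, 1)
    have hAB : k.1 * v.2 = k.2 * v.1 := by
      by_cases hA : A = 0
      · have hB : B ≠ 0 := by
          intro hB
          rw [hA, hB] at e5
          exact he (by rw [e5]; ring)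
        apply mul_left_cancel₀ hB
        linear_combination v.1 * e2 - k.1 * e1
      · apply mul_left_cancel₀ hA
        linear_combination k.2 * e1 - v.2 * e2
    ext
    · change v.1 = 0
      linear_combination v.1 * e4 - k.1 * e3 - m2 * hAB
    · change v.2 = 0
      linear_combination v.2 * e4 - k.2 * e3 + m1 * hAB
  obtain ⟨Θ, hΘan, hΘp, hΘl, hΘr⟩ := exists_local_inverse hΦan hΦinj
  set c : ℂ → ℂ × ℂ := fun y => Θ (l (F a), m a + y) with hc
  have hbase : (l (F a), m a + 0) = Φ a := by simp [hΦ]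
  have hc0 : c 0 = a := by rw [hc]; simp only; rw [hbase, hΘp]
  have hcan : AnalyticAt ℂ c 0 := by
    have h1 : AnalyticAt ℂ (fun y : ℂ => (l (F a), m a + y)) 0 :=
      analyticAt_const.prod (analyticAt_const.add analyticAt_id)
    have h2 : AnalyticAt ℂ Θ ((fun y : ℂ => (l (F a), m a + y)) 0) := by
      simp only; rw [hbase]; exact hΘan
    exact AnalyticAt.comp (g := Θ) (f := fun y : ℂ => (l (F a), m a + y)) h2 h1
  have hcr : ∀ᶠ y in 𝓝 (0 : ℂ), Φ (c y) = (l (F a), m a + y) := by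
    have h1 : Tendsto (fun y : ℂ => (l (F a), m a + y)) (𝓝 0) (𝓝 (Φ a)) := by
      rw [← hbase]
      exact (continuous_const.prodMk (continuous_const.add continuous_id)).tendsto 0
    exact h1.eventually hΘr
  -- derivative of the curve
  have hcd : HasDerivAt c (deriv c 0) 0 := hcan.differentiableAt.hasDerivAt
  have hΦc : HasDerivAt (fun y => Φ (c y)) (((l.comp D).prod m) (deriv c 0)) 0 := by
    have h1 : HasFDerivAt Φ ((l.comp D).prod m) (c 0) := by rw [hc0]; exact hΦd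
    exact h1.comp_hasDerivAt 0 hcd
  have hΦc' : HasDerivAt (fun y => Φ (c y)) ((0 : ℂ), (1 : ℂ)) 0 := by
    have h1 : HasDerivAt (fun y : ℂ => (l (F a), m a + y)) ((0 : ℂ), (1 : ℂ)) 0 :=
      (hasDerivAt_const (0 : ℂ) (l (F a))).prodMk ((hasDerivAt_id (0 : ℂ)).const_add (m a))
    exact h1.congr_of_eventuallyEq hcr
  have huniq := hΦc.unique hΦc'
  simp only [ContinuousLinearMap.prod_apply, ContinuousLinearMap.comp_apply, Prod.mk.injEq] at huniq
  have hck : deriv c 0 = k := by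
    have : deriv c 0 - k = 0 := by
      apply hΦinj
      rw [hΦd.fderiv]
      simp only [ContinuousLinearMap.prod_apply, ContinuousLinearMap.comp_apply, map_sub]
      rw [huniq.1, huniq.2, hDk, hm, map_zero]
      simp
    exact sub_eq_zero.mp this
  -- the one-variable function
  have hG : AnalyticAt ℂ (fun y => l' (F (c y))) 0 := by
    have h1 : AnalyticAt ℂ F (c 0) := by rw [hc0]; exact hF
    exact (l'.analyticAt _).comp (h1.comp hcan)
  have hGd : deriv (fun y => l' (F (c y))) 0 = 0 := by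
    have h1 : HasFDerivAt F D (c 0) := by rw [hc0]; exact hFd
    have h2 : HasDerivAt (fun y => F (c y)) (D (deriv c 0)) 0 := h1.comp_hasDerivAt 0 hcd
    have h3 : HasDerivAt (fun y => l' (F (c y))) (l' (D (deriv c 0))) 0 :=
      l'.hasFDerivAt.comp_hasDerivAt 0 h2
    rw [h3.deriv, hck, hDk, map_zero]
  have hset : {y | c y ∈ V ∧ Φ (c y) = (l (F a), m a + y)} ∈ 𝓝 (0 : ℂ) := by
    have h1 : ∀ᶠ y in 𝓝 (0 : ℂ), c y ∈ V := by
      have : Tendsto c (𝓝 0) (𝓝 (c 0)) := hcan.continuousAt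
      rw [hc0] at this
      exact this hV
    filter_upwards [h1, hcr] with y h1 h2
    exact ⟨h1, h2⟩
  refine not_injOn_of_deriv_eq_zero hG hGd hset ?_
  rintro y1 ⟨hy1, hy1'⟩ y2 ⟨hy2, hy2'⟩ h12
  simp only [hΦ, Prod.mk.injEq] at hy1' hy2'
  have hFeq : F (c y1) = F (c y2) := by
    have : F (c y1) - F (c y2) = 0 := by
      apply hl
      · rw [map_sub, hy1'.1, hy2'.1, sub_self]
      · rw [map_sub]; simp only at h12; rw [h12, sub_self]
    exact sub_eq_zero.mp this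
  have hceq := hinj hy1 hy2 hFeq
  have := hy1'.2
  rw [hceq, hy2'.2] at this
  linear_combination -this

/-- the second-variable derivative operator -/
noncomputable def dz (J : ℂ × ℂ → ℂ) : ℂ × ℂ → ℂ := fun q => deriv (fun ζ => J (q.1, ζ)) q.2

theorem dz_iterate (J : ℂ × ℂ → ℂ) (n : ℕ) (q : ℂ × ℂ) :
    (dz^[n] J) q = iteratedDeriv n (fun ζ => J (q.1, ζ)) q.2 := by
  induction n generalizing q with
  | zero => simp
  | succ n ih =>
    rw [Function.iterate_succ_apply', iteratedDeriv_succ]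
    unfold dz
    congr 1
    funext ζ
    exact ih (q.1, ζ)

theorem dz_eq {J : ℂ × ℂ → ℂ} {q : ℂ × ℂ} (hJ : DifferentiableAt ℂ J q) :
    dz J q = fderiv ℂ J q (0, 1) := by
  have h1 : HasDerivAt (fun ζ : ℂ => (q.1, ζ)) ((0 : ℂ), (1 : ℂ)) q.2 :=
    (hasDerivAt_const q.2 q.1).prodMk (hasDerivAt_id q.2)
  have h2 : HasFDerivAt J (fderiv ℂ J q) (q.1, q.2) := hJ.hasFDerivAt
  exact (h2.comp_hasDerivAt q.2 h1).deriv

theorem dz_analytic {J : ℂ × ℂ → ℂ} {U : Set (ℂ × ℂ)} (hU : IsOpen U)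
    (hJ : AnalyticOnNhd ℂ J U) : AnalyticOnNhd ℂ (dz J) U := by
  have h1 : AnalyticOnNhd ℂ (fun q => fderiv ℂ J q (0, 1)) U := by
    intro q hq
    have h2 := hJ.fderiv_of_isOpen hU q hq
    exact ((ContinuousLinearMap.apply ℂ ℂ ((0, 1) : ℂ × ℂ)).analyticAt _).comp h2
  intro q hq
  refine (h1 q hq).congr ?_
  filter_upwards [hU.mem_nhds hq] with x hx
  exact (dz_eq (hJ x hx).differentiableAt).symm

theorem dz_iterate_analytic {J : ℂ × ℂ → ℂ} {U : Set (ℂ × ℂ)} (hU : IsOpen U)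
    (hJ : AnalyticOnNhd ℂ J U) (n : ℕ) : AnalyticOnNhd ℂ (dz^[n] J) U := by
  induction n with
  | zero => exact hJ
  | succ n ih =>
    rw [Function.iterate_succ']
    exact dz_analytic hU ih

theorem eventually_const_of_deriv {c : ℂ → ℂ × ℂ} {w₀ : ℂ} (h : ∀ᶠ w in 𝓝 w₀, HasDerivAt c 0 w) :
    ∀ᶠ w in 𝓝 w₀, c w = c w₀ := by
  obtain ⟨r, hr, hb⟩ := Metric.mem_nhds_iff.mp h
  filter_upwards [ball_mem_nhds w₀ hr] with w hw
  refine IsOpen.is_const_of_deriv_eq_zero isOpen_ball (convex_ball w₀ r).isPreconnected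
    (fun x hx => (hb hx).differentiableAt.differentiableWithinAt) (fun x hx => (hb hx).deriv) hw
    (mem_ball_self hr)

theorem stepB {F : ℂ × ℂ → ℂ × ℂ} {U : Set (ℂ × ℂ)} (hU : IsOpen U) (hF : AnalyticOnNhd ℂ F U)
    (hinj : InjOn F U) {J : ℂ × ℂ → ℂ} (hJ : AnalyticOnNhd ℂ J U)
    (hZ : ∀ z ∈ U, J z = 0 → fderiv ℂ F z = 0) {p : ℂ × ℂ} (hp : p ∈ U) (hJp : J p = 0)
    (hne : ¬ ∀ᶠ ζ in 𝓝 p.2, J (p.1, ζ) = 0) : False := by
  classical
  have hslice : ∀ q ∈ U, AnalyticAt ℂ (fun x => J (q.1, x)) q.2 := by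
    intro q hq
    exact AnalyticAt.comp (g := J) (f := fun x : ℂ => (q.1, x)) (hJ q hq)
      (analyticAt_const.prod analyticAt_id)
  have hex : ∃ n : ℕ, ∃ q ∈ U, J q = 0 ∧ analyticOrderAt (fun ζ => J (q.1, ζ)) q.2 = n := by
    have h1 : analyticOrderAt (fun ζ => J (p.1, ζ)) p.2 ≠ ⊤ := by
      rw [Ne, analyticOrderAt_eq_top]; exact hne
    obtain ⟨n, hn⟩ := ENat.ne_top_iff_exists.mp h1
    exact ⟨n, p, hp, hJp, hn.symm⟩
  obtain ⟨q₀, hq₀, hJq₀, hord⟩ := Nat.find_spec hex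
  have hmin : ∀ m < Nat.find hex, ¬ ∃ q ∈ U, J q = 0 ∧
      analyticOrderAt (fun ζ => J (q.1, ζ)) q.2 = m := fun m hm => Nat.find_min hex hm
  set n₀ := Nat.find hex with hn₀
  have hn1 : n₀ ≠ 0 := by
    intro h0
    rw [h0] at hord
    have : analyticOrderAt (fun ζ => J (q₀.1, ζ)) q₀.2 = 0 := by simpa using hord
    rw [(hslice q₀ hq₀).analyticOrderAt_eq_zero] at this
    exact this hJq₀
  set K := dz^[n₀ - 1] J with hK
  have hKan : AnalyticOnNhd ℂ K U := dz_iterate_analytic hU hJ _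
  have hKzero : ∀ q ∈ U, J q = 0 → K q = 0 := by
    intro q hq hJq
    have hge : (n₀ : ℕ∞) ≤ analyticOrderAt (fun ζ => J (q.1, ζ)) q.2 := by
      by_contra hlt
      push Not at hlt
      obtain ⟨m, hm⟩ := ENat.ne_top_iff_exists.mp hlt.ne_top
      rw [← hm] at hlt
      have hmn : m < n₀ := by exact_mod_cast hlt
      exact hmin m hmn ⟨q, hq, hJq, hm.symm⟩
    rw [natCast_le_analyticOrderAt_iff_iteratedDeriv_eq_zero (hslice q hq)] at hge
    rw [hK, dz_iterate]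
    exact hge (n₀ - 1) (by omega)
  have hKd : fderiv ℂ K q₀ (0, 1) ≠ 0 := by
    rw [← dz_eq (hKan q₀ hq₀).differentiableAt]
    have : dz K q₀ = (dz^[n₀] J) q₀ := by
      rw [hK, ← Function.iterate_succ_apply' dz (n₀ - 1) J, Nat.succ_eq_add_one,
        Nat.sub_add_cancel (Nat.one_le_iff_ne_zero.mpr hn1)]
    rw [this, dz_iterate]
    exact ((analyticOrderAt_eq_nat_iff_iteratedDeriv_eq_zero (hslice q₀ hq₀)).mp hord).2
  set Φ : ℂ × ℂ → ℂ × ℂ := fun z => (z.1, K z) with hΦ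
  have hΦan : AnalyticAt ℂ Φ q₀ := analyticAt_fst.prod (hKan q₀ hq₀)
  have hΦd : HasFDerivAt Φ ((ContinuousLinearMap.fst ℂ ℂ ℂ).prod (fderiv ℂ K q₀)) q₀ :=
    hasFDerivAt_fst.prodMk (hKan q₀ hq₀).differentiableAt.hasFDerivAt
  have hΦinj : ∀ v, fderiv ℂ Φ q₀ v = 0 → v = 0 := by
    intro v hv
    rw [hΦd.fderiv] at hv
    simp only [ContinuousLinearMap.prod_apply, ContinuousLinearMap.coe_fst', Prod.mk_eq_zero] at hv
    obtain ⟨h1, h2⟩ := hv
    rw [lin_expand, h1, mul_zero, zero_add] at h2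
    exact Prod.ext h1 ((mul_eq_zero.mp h2).resolve_left hKd)
  obtain ⟨Θ, hΘan, hΘp, hΘl, hΘr⟩ := exists_local_inverse hΦan hΦinj
  have hbase : Φ q₀ = (q₀.1, 0) := by simp only [hΦ]; rw [hKzero q₀ hq₀ hJq₀]
  rw [hbase] at hΘan hΘp
  set c : ℂ → ℂ × ℂ := fun w => Θ (w, 0) with hc
  have hcan : AnalyticAt ℂ c q₀.1 :=
    AnalyticAt.comp (g := Θ) (f := fun w : ℂ => (w, (0 : ℂ))) hΘan
      (analyticAt_id.prod analyticAt_const)
  have hne0 : ¬ ∀ᶠ ζ in 𝓝 q₀.2, J (q₀.1, ζ) = 0 := by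
    rw [← analyticOrderAt_eq_top, hord]
    exact ENat.natCast_ne_top _
  have hN : {q | q ∈ U ∧ Θ (Φ q) = q} ∈ 𝓝 q₀ := by
    filter_upwards [hU.mem_nhds hq₀, hΘl] with q h1 h2
    exact ⟨h1, h2⟩
  have hH := hurwitz (hJ q₀ hq₀) hJq₀ hne0 hN
  have hcgood : ∀ᶠ w in 𝓝 q₀.1, c w ∈ U ∧ J (c w) = 0 ∧ (c w).1 = w := by
    filter_upwards [hH] with w hw
    obtain ⟨ζ, ⟨hζU, hζΘ⟩, hζJ⟩ := hw
    have h1 : K (w, ζ) = 0 := hKzero _ hζU hζJ
    have h2 : Φ (w, ζ) = (w, 0) := by simp only [hΦ]; rw [h1]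
    rw [h2] at hζΘ
    have h3 : c w = (w, ζ) := hζΘ
    rw [h3]
    exact ⟨hζU, hζJ, rfl⟩
  have hder : ∀ᶠ w in 𝓝 q₀.1, HasDerivAt (fun w => F (c w)) 0 w := by
    filter_upwards [hcgood, hcan.eventually_analyticAt] with w hw hw2
    have h1 : HasFDerivAt F (0 : ℂ × ℂ →L[ℂ] ℂ × ℂ) (c w) := by
      rw [← hZ (c w) hw.1 hw.2.1]
      exact (hF (c w) hw.1).differentiableAt.hasFDerivAt
    have h2 := h1.comp_hasDerivAt w hw2.differentiableAt.hasDerivAt
    exact h2.congr_deriv (by simp)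
  have hconst := eventually_const_of_deriv hder
  have hfalse : ∀ᶠ w in 𝓝[≠] q₀.1, False := by
    have hall := (hconst.and hcgood).filter_mono (nhdsWithin_le_nhds (s := {q₀.1}ᶜ))
    filter_upwards [hall, self_mem_nhdsWithin] with w hw hwne
    have h0 := hcgood.self_of_nhds
    have h1 : c w = c q₀.1 := hinj hw.2.1 h0.1 hw.1
    apply hwne
    have h2 : (c w).1 = (c q₀.1).1 := by rw [h1]
    rw [hw.2.2.2, h0.2.2] at h2
    exact h2
  exact (NeBot.ne (inferInstance : NeBot (𝓝[≠] q₀.1))) (by simpa using hfalse)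

/-- the Jacobian determinant -/
noncomputable def jac (F : ℂ × ℂ → ℂ × ℂ) (z : ℂ × ℂ) : ℂ :=
  (fderiv ℂ F z (1, 0)).1 * (fderiv ℂ F z (0, 1)).2 -
    (fderiv ℂ F z (1, 0)).2 * (fderiv ℂ F z (0, 1)).1

theorem jac_analytic {F : ℂ × ℂ → ℂ × ℂ} {U : Set (ℂ × ℂ)} (hU : IsOpen U)
    (hF : AnalyticOnNhd ℂ F U) : AnalyticOnNhd ℂ (jac F) U := by
  intro q hq
  have h := hF.fderiv_of_isOpen hU q hq
  have h1 : AnalyticAt ℂ (fun q => fderiv ℂ F q (1, 0)) q :=
    ((ContinuousLinearMap.apply ℂ (ℂ × ℂ) ((1, 0) : ℂ × ℂ)).analyticAt _).comp h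
  have h2 : AnalyticAt ℂ (fun q => fderiv ℂ F q (0, 1)) q :=
    ((ContinuousLinearMap.apply ℂ (ℂ × ℂ) ((0, 1) : ℂ × ℂ)).analyticAt _).comp h
  have a1 : AnalyticAt ℂ (fun q => (fderiv ℂ F q (1, 0)).1) q := analyticAt_fst.comp h1
  have a2 : AnalyticAt ℂ (fun q => (fderiv ℂ F q (1, 0)).2) q := analyticAt_snd.comp h1
  have a3 : AnalyticAt ℂ (fun q => (fderiv ℂ F q (0, 1)).1) q := analyticAt_fst.comp h2
  have a4 : AnalyticAt ℂ (fun q => (fderiv ℂ F q (0, 1)).2) q := analyticAt_snd.comp h2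
  exact (a1.mul a4).sub (a2.mul a3)

theorem fderiv_expand (D : ℂ × ℂ →L[ℂ] ℂ × ℂ) (v : ℂ × ℂ) :
    D v = ((D (1, 0)).1 * v.1 + (D (0, 1)).1 * v.2, (D (1, 0)).2 * v.1 + (D (0, 1)).2 * v.2) := by
  have h1 := lin_expand ((ContinuousLinearMap.fst ℂ ℂ ℂ).comp D) v
  have h2 := lin_expand ((ContinuousLinearMap.snd ℂ ℂ ℂ).comp D) v
  exact Prod.ext h1 h2

theorem exists_ker_of_jac {F : ℂ × ℂ → ℂ × ℂ} {z : ℂ × ℂ} (h : jac F z = 0) :
    ∃ k : ℂ × ℂ, k ≠ 0 ∧ fderiv ℂ F z k = 0 := by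
  unfold jac at h
  set D := fderiv ℂ F z
  set α := (D (1, 0)).1 with hα
  set γ := (D (1, 0)).2 with hγ
  set β := (D (0, 1)).1 with hβ
  set δ := (D (0, 1)).2 with hδ
  by_cases h1 : δ = 0 ∧ γ = 0
  · by_cases h2 : β = 0 ∧ α = 0
    · refine ⟨(1, 0), by simp, ?_⟩
      rw [fderiv_expand]
      simp only [← hα, ← hγ, ← hβ, ← hδ, h1.1, h1.2, h2.1, h2.2]
      simp
    · refine ⟨(β, -α), ?_, ?_⟩
      · intro h3
        simp only [Prod.mk_eq_zero, neg_eq_zero] at h3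
        exact h2 h3
      · rw [fderiv_expand]
        simp only [← hα, ← hγ, ← hβ, ← hδ, h1.1, h1.2]
        ext
        · simp; ring
        · simp
  · refine ⟨(δ, -γ), ?_, ?_⟩
    · intro h3
      simp only [Prod.mk_eq_zero, neg_eq_zero] at h3
      exact h1 h3
    · rw [fderiv_expand]
      simp only [← hα, ← hγ, ← hβ, ← hδ]
      ext
      · simp; linear_combination h
      · simp; ring

theorem jac_of_ker {F : ℂ × ℂ → ℂ × ℂ} {z v : ℂ × ℂ} (hv : v ≠ 0) (h : fderiv ℂ F z v = 0) :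
    jac F z = 0 := by
  rw [fderiv_expand, Prod.mk_eq_zero] at h
  obtain ⟨h1, h2⟩ := h
  unfold jac
  set D := fderiv ℂ F z
  by_cases hv1 : v.1 = 0
  · have hv2 : v.2 ≠ 0 := fun hv2 => hv (Prod.ext hv1 hv2)
    apply mul_left_cancel₀ hv2
    linear_combination (D (1, 0)).1 * h2 - (D (1, 0)).2 * h1
  · apply mul_left_cancel₀ hv1
    linear_combination (D (0, 1)).2 * h1 - (D (0, 1)).1 * h2

theorem fderiv_zero_of_ker {F : ℂ × ℂ → ℂ × ℂ} {U : Set (ℂ × ℂ)} (hU : IsOpen U)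
    (hF : AnalyticOnNhd ℂ F U) (hinj : InjOn F U) {z k : ℂ × ℂ} (hz : z ∈ U) (hk : k ≠ 0)
    (h : fderiv ℂ F z k = 0) : fderiv ℂ F z = 0 := by
  by_contra hne
  obtain ⟨e, he⟩ : ∃ e, fderiv ℂ F z e ≠ 0 := by
    by_contra hno
    push Not at hno
    exact hne (ContinuousLinearMap.ext hno)
  have hor : (fderiv ℂ F z e).1 ≠ 0 ∨ (fderiv ℂ F z e).2 ≠ 0 := by
    by_contra hno
    push Not at hno
    exact he (Prod.ext hno.1 hno.2)
  rcases hor with h1 | h2
  · exact stepA (hF z hz) (hU.mem_nhds hz) hinj (ContinuousLinearMap.fst ℂ ℂ ℂ)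
      (ContinuousLinearMap.snd ℂ ℂ ℂ) (fun v a b => Prod.ext a b) h1 hk h
  · exact stepA (hF z hz) (hU.mem_nhds hz) hinj (ContinuousLinearMap.snd ℂ ℂ ℂ)
      (ContinuousLinearMap.fst ℂ ℂ ℂ) (fun v a b => Prod.ext b a) h2 hk h

/-- **Osgood's theorem in dimension two**: an injective holomorphic mapping has an injective
derivative everywhere. -/
theorem osgood {F : ℂ × ℂ → ℂ × ℂ} {U : Set (ℂ × ℂ)} (hU : IsOpen U)
    (hF : AnalyticOnNhd ℂ F U) (hinj : InjOn F U) {a : ℂ × ℂ} (ha : a ∈ U) :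
    ∀ v, fderiv ℂ F a v = 0 → v = 0 := by
  intro v hv
  by_contra hv0
  have hJa : jac F a = 0 := jac_of_ker hv0 hv
  have hJan := jac_analytic hU hF
  have hZ : ∀ z ∈ U, jac F z = 0 → fderiv ℂ F z = 0 := by
    intro z hz hJ
    obtain ⟨k, hk, hDk⟩ := exists_ker_of_jac hJ
    exact fderiv_zero_of_ker hU hF hinj hz hk hDk
  obtain ⟨r, hr, hball⟩ := Metric.isOpen_iff.mp hU a ha
  -- `J` is not identically zero on the ball
  obtain ⟨b, hb, hJb⟩ : ∃ b ∈ ball a r, jac F b ≠ 0 := by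
    by_contra hno
    push Not at hno
    have hconst : ∀ x ∈ ball a r, F x = F a := by
      intro x hx
      refine isOpen_ball.is_const_of_fderiv_eq_zero (convex_ball a r).isPreconnected
        (fun y hy => (hF y (hball hy)).differentiableAt.differentiableWithinAt)
        (fun y hy => hZ y (hball hy) (hno y hy)) hx (mem_ball_self hr)
    have hmem : a + ((r / 2 : ℝ) : ℂ) • ((1, 0) : ℂ × ℂ) ∈ ball a r := by
      rw [mem_ball, dist_eq_norm, add_sub_cancel_left]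
      have : ‖((r / 2 : ℝ) : ℂ)‖ = r / 2 := by
        rw [Complex.norm_real, Real.norm_of_nonneg (by linarith)]
      rw [norm_smul, this]
      simp only [Prod.norm_def, norm_one, norm_zero]
      simp
      linarith
    have h1 := hinj (hball hmem) ha (hconst _ hmem)
    have h2 : (((r / 2 : ℝ) : ℂ) • ((1, 0) : ℂ × ℂ)) = 0 := by
      have := congrArg (fun x => x - a) h1
      simpa using this
    simp at h2
    exact hr.ne' h2
  set e := b - a with he
  have he0 : e ≠ 0 := by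
    intro h0
    have : b = a := sub_eq_zero.mp h0
    rw [this] at hJb
    exact hJb hJa
  obtain ⟨e', hdet⟩ : ∃ e' : ℂ × ℂ, e'.1 * e.2 - e'.2 * e.1 ≠ 0 := by
    by_cases h1 : e.1 = 0
    · have h2 : e.2 ≠ 0 := fun h2 => he0 (Prod.ext h1 h2)
      exact ⟨(1, 0), by simpa using h2⟩
    · exact ⟨(0, 1), by simpa using h1⟩
  set T : ℂ × ℂ → ℂ × ℂ := fun q => a + (q.1 • e' + q.2 • e) with hT
  set T' : ℂ × ℂ →L[ℂ] ℂ × ℂ :=
    (ContinuousLinearMap.fst ℂ ℂ ℂ).smulRight e' + (ContinuousLinearMap.snd ℂ ℂ ℂ).smulRight e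
    with hT'
  have hTT' : T = fun q => a + T' q := by
    funext q; simp [hT, hT']
  have hTan : ∀ q, AnalyticAt ℂ T q := by
    intro q; rw [hTT']; exact analyticAt_const.add (T'.analyticAt q)
  have hTd : ∀ q, HasFDerivAt T T' q := by
    intro q; rw [hTT']; exact T'.hasFDerivAt.const_add a
  have hTcont : Continuous T := by
    rw [hTT']; exact continuous_const.add T'.continuous
  have hTinj : Function.Injective T := by
    intro q q' h
    simp only [hT] at h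
    have h' := add_left_cancel h
    have h1 := congrArg Prod.fst h'
    have h2 := congrArg Prod.snd h'
    simp only [Prod.fst_add, Prod.snd_add, Prod.smul_fst, Prod.smul_snd, smul_eq_mul] at h1 h2
    have a1 : (q.1 - q'.1) * (e'.1 * e.2 - e'.2 * e.1) = 0 := by
      linear_combination e.2 * h1 - e.1 * h2
    have a2 : (q.2 - q'.2) * (e'.1 * e.2 - e'.2 * e.1) = 0 := by
      linear_combination e'.1 * h2 - e'.2 * h1
    exact Prod.ext (sub_eq_zero.mp ((mul_eq_zero.mp a1).resolve_right hdet))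
      (sub_eq_zero.mp ((mul_eq_zero.mp a2).resolve_right hdet))
  have hT0 : T 0 = a := by simp [hT]
  refine stepB (F := fun q => F (T q)) (U := T ⁻¹' U) (J := fun q => jac F (T q)) (p := 0)
    (hU.preimage hTcont) (fun q hq => (hF (T q) hq).comp (hTan q)) ?_
    (fun q hq => (hJan (T q) hq).comp (hTan q)) ?_ ?_ ?_ ?_
  · intro q hq q' hq' h
    exact hTinj (hinj hq hq' h)
  · intro q hq hJ
    have h1 : HasFDerivAt F (0 : ℂ × ℂ →L[ℂ] ℂ × ℂ) (T q) := by
      rw [← hZ (T q) hq hJ]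
      exact (hF (T q) hq).differentiableAt.hasFDerivAt
    have h2 : HasFDerivAt (fun q => F (T q)) ((0 : ℂ × ℂ →L[ℂ] ℂ × ℂ).comp T') q :=
      h1.comp q (hTd q)
    rw [h2.fderiv]
    simp
  · change T 0 ∈ U
    rw [hT0]; exact ha
  · simp only [hT0]; exact hJa
  · intro hev
    -- restrict to the line through `a` and `b`
    set S : Set ℂ := {ζ | a + ζ • e ∈ ball a r} with hS
    have hSconv : Convex ℝ S := by
      intro x hx y hy s t hs ht hst
      have hx' : a + x • e ∈ ball a r := hx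
      have hy' : a + y • e ∈ ball a r := hy
      have := (convex_ball a r) hx' hy' hs ht hst
      have heq : a + (s • x + t • y) • e = s • (a + x • e) + t • (a + y • e) := by
        have h1 : (s : ℝ) • a + (t : ℝ) • a = a := by rw [← add_smul, hst, one_smul]
        calc a + (s • x + t • y) • e = ((s : ℝ) • a + (t : ℝ) • a) + (s • x + t • y) • e := by rw [h1]
          _ = s • (a + x • e) + t • (a + y • e) := by
            rw [add_smul, smul_add, smul_add, smul_assoc, smul_assoc]; abel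
      change a + (s • x + t • y) • e ∈ ball a r
      rw [heq]; exact this
    have h0S : (0 : ℂ) ∈ S := by
      change a + (0 : ℂ) • e ∈ ball a r
      rw [zero_smul, add_zero]; exact mem_ball_self hr
    have h1S : (1 : ℂ) ∈ S := by
      change a + (1 : ℂ) • e ∈ ball a r
      rw [one_smul, he, add_sub_cancel]; exact hb
    have hjan : AnalyticOnNhd ℂ (fun ζ : ℂ => jac F (a + ζ • e)) S := by
      intro ζ hζ
      have h1 : AnalyticAt ℂ (fun ζ : ℂ => a + ζ • e) ζ :=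
        analyticAt_const.add (analyticAt_id.smul analyticAt_const)
      exact AnalyticAt.comp (g := jac F) (f := fun ζ : ℂ => a + ζ • e) (hJan _ (hball hζ)) h1
    have hev0 : (fun ζ : ℂ => jac F (a + ζ • e)) =ᶠ[𝓝 0] 0 := by
      have hev' : ∀ᶠ ζ in 𝓝 (0 : ℂ), jac F (T ((0 : ℂ × ℂ).1, ζ)) = 0 := hev
      filter_upwards [hev'] with ζ hζ
      simpa [hT] using hζ
    have := hjan.eqOn_zero_of_preconnected_of_eventuallyEq_zero hSconv.isPreconnected h0S hev0 h1S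
    simp only [one_smul, Pi.zero_apply] at this
    rw [he, add_sub_cancel] at this
    exact hJb this

end Pool.Agent.Lib.MP_5d6127_an
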